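import Mathlib

open MeasureTheory Set Filter Topology
open scoped NNReal ENNReal

namespace Pool.Agent.Q287.BP

/-- Admissible birth rates on `ℝ` (dimension `d = 1`): conditions (A1)-(A4); instead of invariance
under `SO(1)`, which is trivial, invariance under the reflection is required as well. -/
structure Admissible (b : ℝ → Finset ℝ → ℝ≥0) : Prop where
  measurable : ∀ n : ℕ, Measurable fun p : ℝ × (Fin n → ℝ) => b p.1 (Finset.univ.image p.2)
  bound : ∃ (a : ℝ → ℝ) (θ : ℝ), (∀ x, 0 ≤ a x) ∧ 0 < θ ∧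
    Integrable (fun x => Real.exp (θ * |x|) * a x) ∧
    ∀ (x : ℝ) (η : Finset ℝ), (b x η : ℝ) ≤ ∑ y ∈ η, a (x - y)
  mono : ∀ (x : ℝ) (η ζ : Finset ℝ), η ⊆ ζ → b x η ≤ b x ζ
  translate : ∀ (x y : ℝ) (η : Finset ℝ), b (x + y) (η.image fun z => z + y) = b x η
  reflect : ∀ (x : ℝ) (η : Finset ℝ), b (-x) (η.image fun z => -z) = b x η
  pos : ∃ c r : ℝ, 0 < c ∧ 0 < r ∧
    ∀ (x : ℝ) (η : Finset ℝ), (∃ y ∈ η, |x - y| ≤ r) → c ≤ b x η

/-- Total birth rate `∫ b(x, η) dx` of the configuration `η`. -/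
noncomputable def totalRate (b : ℝ → Finset ℝ → ℝ≥0) (η : Finset ℝ) : ℝ≥0∞ := ∫⁻ x, b x η

/-- The configuration after `n` births: the set of the positions `X 0, ..., X n`. -/
noncomputable def config {Ω : Type*} (X : ℕ → Ω → ℝ) (n : ℕ) (ω : Ω) : Finset ℝ :=
  Finset.univ.image fun k : Fin (n + 1) => X k ω

/-- The history of the first `n` births (times and positions). -/
def hist {Ω : Type*} (τ X : ℕ → Ω → ℝ) (n : ℕ) (ω : Ω) : Fin (n + 1) → ℝ × ℝ :=
  fun k => (τ k ω, X k ω)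

/-- `τ n`, `X n` (`n ≥ 1`) are the time and the position of the `n`-th birth of a birth process with
rate `b` started from `{0}` (`τ 0 = 0`, `X 0 = 0`): given the history of the first `n` births the
waiting time and the position of the next birth have the joint density
`b(x, η_n) exp(-s ∫ b(y, η_n) dy)` with respect to `ds dx` on `(0, ∞) × ℝ`, `η_n = {X 0, ..., X n}`. -/
structure IsBirthProcess {Ω : Type*} [MeasurableSpace Ω] (b : ℝ → Finset ℝ → ℝ≥0)
    (P : Measure Ω) (τ X : ℕ → Ω → ℝ) : Prop where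
  measurable_time : ∀ n, Measurable (τ n)
  measurable_pos : ∀ n, Measurable (X n)
  time_zero : ∀ ω, τ 0 ω = 0
  pos_zero : ∀ ω, X 0 ω = 0
  step : ∀ (n : ℕ) (G : (Fin (n + 1) → ℝ × ℝ) × ℝ × ℝ → ℝ≥0∞), Measurable G →
    ∫⁻ ω, G (hist τ X n ω, τ (n + 1) ω - τ n ω, X (n + 1) ω) ∂P =
      ∫⁻ ω, (∫⁻ s in Ioi (0 : ℝ), ∫⁻ x, G (hist τ X n ω, s, x) *
        (b x (config X n ω) *
          ENNReal.ofReal (Real.exp (-((totalRate b (config X n ω)).toReal * s))))) ∂P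

/-- The set `ξ_t`: union of the closed balls of radius `r` around the particles born up to time
`t`. -/
def occupied {Ω : Type*} (τ X : ℕ → Ω → ℝ) (r t : ℝ) (ω : Ω) : Set ℝ :=
  {x | ∃ n, τ n ω ≤ t ∧ |x - X n ω| ≤ r}

/-- `s` is the speed of propagation of the birth process with rate `b`: the shape theorem
`(1-ε) [-s,s] ⊆ t⁻¹ ξ_t ⊆ (1+ε) [-s,s]` for all large `t`, almost surely, holds with this `s`. -/
def IsSpeed (b : ℝ → Finset ℝ → ℝ≥0) (s : ℝ) : Prop :=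
  ∃ (Ω : Type) (_ : MeasurableSpace Ω) (P : Measure Ω) (τ X : ℕ → Ω → ℝ) (r : ℝ),
    IsProbabilityMeasure P ∧ IsBirthProcess b P τ X ∧ 0 < r ∧ 0 < s ∧
    ∀ ε : ℝ, 0 < ε → ε < 1 → ∀ᵐ ω ∂P, ∀ᶠ t in atTop,
      Icc (-((1 - ε) * s * t)) ((1 - ε) * s * t) ⊆ occupied τ X r t ω ∧
      occupied τ X r t ω ⊆ Icc (-((1 + ε) * s * t)) ((1 + ε) * s * t)

end Pool.Agent.Q287.BP
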