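import Mathlib
import Pool.Agent.Q287.BP.Defs

open MeasureTheory Set Filter Topology
open scoped NNReal ENNReal

namespace Pool.Agent.Q287.BP

variable {Ω : Type*} [MeasurableSpace Ω] {b : ℝ → Finset ℝ → ℝ≥0} {P : Measure Ω}
  {τ X : ℕ → Ω → ℝ}

/-- positions in a history -/
def pos {m : ℕ} (h : Fin m → ℝ × ℝ) : Fin m → ℝ := fun k => (h k).2

lemma measurable_pos {m : ℕ} : Measurable (pos : (Fin m → ℝ × ℝ) → Fin m → ℝ) := by
  unfold pos
  fun_prop

omit [MeasurableSpace Ω] in
lemma config_eq (τ X : ℕ → Ω → ℝ) (n : ℕ) (ω : Ω) :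
    config X n ω = Finset.univ.image (pos (hist τ X n ω)) := rfl

lemma lintegral_exp_neg_Ioi {c : ℝ} (hc : 0 < c) :
    ∫⁻ s in Ioi (0 : ℝ), ENNReal.ofReal (Real.exp (-(c * s))) = ENNReal.ofReal (1 / c) := by
  have h1 : IntegrableOn (fun s : ℝ => Real.exp (-c * s)) (Ioi 0) :=
    integrableOn_exp_mul_Ioi (by linarith) 0
  have h2 := integral_exp_mul_Ioi (a := -c) (by linarith) 0
  have h3 : ∀ s : ℝ, Real.exp (-(c * s)) = Real.exp (-c * s) := fun s => by rw [neg_mul]
  simp only [h3]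
  rw [← ofReal_integral_eq_lintegral_ofReal h1 (ae_of_all _ fun s => (Real.exp_pos _).le), h2]
  congr 1
  simp

lemma measurable_rate (hb : ∀ n : ℕ, Measurable fun p : ℝ × (Fin n → ℝ) =>
    b p.1 (Finset.univ.image p.2)) {m : ℕ} (v : Fin m → ℝ) :
    Measurable fun x => b x (Finset.univ.image v) := by
  have := (hb m).comp (measurable_id.prodMk (measurable_const (a := v)))
  exact this

lemma step_exp (h : IsBirthProcess b P τ X)
    (hb : ∀ n : ℕ, Measurable fun p : ℝ × (Fin n → ℝ) => b p.1 (Finset.univ.image p.2))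
    (n : ℕ) (μ : ℝ) {Q : (Fin (n + 1) → ℝ × ℝ) → ℝ≥0∞} (hQ : Measurable Q)
    {H : (Fin (n + 1) → ℝ × ℝ) × ℝ → ℝ≥0∞} (hH : Measurable H)
    (hpos : ∀ ω, Q (hist τ X n ω) ≠ 0 → 0 < μ + (totalRate b (config X n ω)).toReal) :
    ∫⁻ ω, Q (hist τ X n ω) * ENNReal.ofReal (Real.exp (-(μ * (τ (n + 1) ω - τ n ω)))) *
        H (hist τ X n ω, X (n + 1) ω) ∂P =
      ∫⁻ ω, Q (hist τ X n ω) *
        ENNReal.ofReal (1 / (μ + (totalRate b (config X n ω)).toReal)) *
        (∫⁻ x, H (hist τ X n ω, x) * b x (config X n ω)) ∂P := by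
  have hG : Measurable fun q : (Fin (n + 1) → ℝ × ℝ) × ℝ × ℝ =>
      Q q.1 * ENNReal.ofReal (Real.exp (-(μ * q.2.1))) * H (q.1, q.2.2) := by
    fun_prop
  rw [h.step n _ hG]
  refine lintegral_congr fun ω => ?_
  by_cases hq : Q (hist τ X n ω) = 0
  · simp [hq]
  have hc := hpos ω hq
  have hmx : Measurable fun x => H (hist τ X n ω, x) * (b x (config X n ω) : ℝ≥0∞) := by
    refine (hH.comp (measurable_const.prodMk measurable_id)).mul ?_
    exact (measurable_rate hb (pos (hist τ X n ω))).coe_nnreal_ennreal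
  have h1 : ∀ s : ℝ, ∫⁻ x, Q (hist τ X n ω) * ENNReal.ofReal (Real.exp (-(μ * s))) *
      H (hist τ X n ω, x) * (b x (config X n ω) *
        ENNReal.ofReal (Real.exp (-((totalRate b (config X n ω)).toReal * s)))) =
      (Q (hist τ X n ω) * ∫⁻ x, H (hist τ X n ω, x) * b x (config X n ω)) *
        ENNReal.ofReal (Real.exp (-((μ + (totalRate b (config X n ω)).toReal) * s))) := by
    intro s
    have h2 : ∀ x : ℝ, Q (hist τ X n ω) * ENNReal.ofReal (Real.exp (-(μ * s))) *
        H (hist τ X n ω, x) * (b x (config X n ω) *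
          ENNReal.ofReal (Real.exp (-((totalRate b (config X n ω)).toReal * s)))) =
        (Q (hist τ X n ω) * ENNReal.ofReal
          (Real.exp (-((μ + (totalRate b (config X n ω)).toReal) * s)))) *
        (H (hist τ X n ω, x) * b x (config X n ω)) := by
      intro x
      have h3 : Real.exp (-((μ + (totalRate b (config X n ω)).toReal) * s)) =
          Real.exp (-(μ * s)) * Real.exp (-((totalRate b (config X n ω)).toReal * s)) := by
        rw [← Real.exp_add]
        congr 1
        ring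
      rw [h3, ENNReal.ofReal_mul (Real.exp_pos _).le]
      ring
    simp only [h2]
    rw [lintegral_const_mul _ hmx]
    ring
  simp only [h1]
  rw [lintegral_const_mul _ (by fun_prop), lintegral_exp_neg_Ioi hc]
  ring

end Pool.Agent.Q287.BP
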