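import Mathlib
import Pool.Agent.Q287.BP.Defs
import Pool.Agent.Q287.BP.Chain

open MeasureTheory Set Filter Topology
open scoped NNReal ENNReal

namespace Pool.Agent.Q287.BP

variable {Ω : Type*} [MeasurableSpace Ω] {b : ℝ → Finset ℝ → ℝ≥0} {P : Measure Ω}
  {τ X : ℕ → Ω → ℝ}

omit [MeasurableSpace Ω] in
lemma card_config_le (X : ℕ → Ω → ℝ) (n : ℕ) (ω : Ω) : (config X n ω).card ≤ n + 1 := by
  unfold config
  refine Finset.card_image_le.trans ?_
  simp

/-- The birth times are strictly increasing. -/
lemma ae_lt (h : IsBirthProcess b P τ X) : ∀ᵐ ω ∂P, ∀ n, τ n ω < τ (n + 1) ω := by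
  rw [ae_all_iff]
  intro n
  have hG : Measurable fun q : (Fin (n + 1) → ℝ × ℝ) × ℝ × ℝ =>
      (Iic (0 : ℝ)).indicator (1 : ℝ → ℝ≥0∞) q.2.1 :=
    (measurable_one.indicator measurableSet_Iic).comp (measurable_fst.comp measurable_snd)
  have h1 := h.step n _ hG
  have h2 : ∀ ω, (∫⁻ s in Ioi (0 : ℝ), ∫⁻ x : ℝ, (Iic (0 : ℝ)).indicator (1 : ℝ → ℝ≥0∞) s *
      (b x (config X n ω) *
        ENNReal.ofReal (Real.exp (-((totalRate b (config X n ω)).toReal * s))))) = 0 := by
    intro ω
    rw [setLIntegral_congr_fun (g := fun _ => 0) measurableSet_Ioi]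
    · simp
    · intro s hs
      have : s ∉ Iic (0 : ℝ) := by simpa using hs
      simp [this]
  simp only [h2, lintegral_zero] at h1
  rw [lintegral_eq_zero_iff] at h1
  · filter_upwards [h1] with ω hω
    by_contra hc
    have h3 : τ (n + 1) ω - τ n ω ∈ Iic (0 : ℝ) := by
      simp only [mem_Iic]
      linarith [not_lt.1 hc]
    simp only [Pi.zero_apply] at hω
    rw [indicator_of_mem h3] at hω
    simp at hω
  · exact (measurable_one.indicator measurableSet_Iic).comp
      ((h.measurable_time (n + 1)).sub (h.measurable_time n))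

lemma measurable_hist (h : IsBirthProcess b P τ X) (n : ℕ) : Measurable (hist τ X n) := by
  unfold hist
  rw [measurable_pi_iff]
  intro k
  exact (h.measurable_time k).prodMk (h.measurable_pos k)

/-- Non-explosion. -/
lemma ae_tendsto [IsProbabilityMeasure P] (h : IsBirthProcess b P τ X)
    (hb : ∀ n : ℕ, Measurable fun p : ℝ × (Fin n → ℝ) => b p.1 (Finset.univ.image p.2))
    {C : ℝ} (hC : 0 < C)
    (hrate : ∀ η : Finset ℝ, totalRate b η ≤ ENNReal.ofReal (C * η.card)) :
    ∀ᵐ ω ∂P, Tendsto (fun n => τ n ω) atTop atTop := by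
  have hE : ∀ n, ∫⁻ ω, ENNReal.ofReal (Real.exp (-(C * τ n ω))) ∂P ≤
      ENNReal.ofReal (1 / ((n : ℝ) + 1)) := by
    intro n
    induction n with
    | zero => simp [h.time_zero]
    | succ n ih =>
      have hQ : Measurable fun q : Fin (n + 1) → ℝ × ℝ =>
          ENNReal.ofReal (Real.exp (-(C * (q (Fin.last n)).1))) := by fun_prop
      have h1 := step_exp h hb n C hQ (H := fun _ => 1) measurable_const
        (fun ω _ => by positivity)
      have h2 : ∀ ω, ENNReal.ofReal (Real.exp (-(C * (hist τ X n ω (Fin.last n)).1))) *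
          ENNReal.ofReal (Real.exp (-(C * (τ (n + 1) ω - τ n ω)))) * 1 =
          ENNReal.ofReal (Real.exp (-(C * τ (n + 1) ω))) := by
        intro ω
        rw [mul_one, ← ENNReal.ofReal_mul (Real.exp_pos _).le, ← Real.exp_add]
        congr 2
        simp only [hist, Fin.val_last]
        ring
      simp only [h2] at h1
      rw [h1]
      have h3 : ∀ ω, ENNReal.ofReal (Real.exp (-(C * (hist τ X n ω (Fin.last n)).1))) *
          ENNReal.ofReal (1 / (C + (totalRate b (config X n ω)).toReal)) *
          (∫⁻ x, 1 * b x (config X n ω)) ≤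
          ENNReal.ofReal (Real.exp (-(C * τ n ω))) *
            ENNReal.ofReal (((n : ℝ) + 1) / ((n : ℝ) + 2)) := by
        intro ω
        have h4 : (∫⁻ x, 1 * (b x (config X n ω) : ℝ≥0∞)) = totalRate b (config X n ω) := by
          simp [totalRate]
        have h5 : totalRate b (config X n ω) ≤ ENNReal.ofReal (C * ((n : ℝ) + 1)) := by
          refine (hrate _).trans (ENNReal.ofReal_le_ofReal ?_)
          have := card_config_le X n ω
          have h6 : ((config X n ω).card : ℝ) ≤ (n : ℝ) + 1 := by exact_mod_cast this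
          exact mul_le_mul_of_nonneg_left h6 hC.le
        have hne : totalRate b (config X n ω) ≠ ∞ := ne_top_of_le_ne_top ENNReal.ofReal_ne_top h5
        rw [h4, mul_assoc]
        refine mul_le_mul' le_rfl ?_
        set R := (totalRate b (config X n ω)).toReal with hR
        have hR0 : 0 ≤ R := ENNReal.toReal_nonneg
        have hR1 : R ≤ C * ((n : ℝ) + 1) := ENNReal.toReal_le_of_le_ofReal (by positivity) h5
        rw [← ENNReal.ofReal_toReal hne, ← hR, ← ENNReal.ofReal_mul (by positivity)]
        refine ENNReal.ofReal_le_ofReal ?_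
        rw [one_div, inv_mul_eq_div, div_le_div_iff₀ (by positivity) (by positivity)]
        nlinarith
      refine (lintegral_mono h3).trans ?_
      rw [lintegral_mul_const' _ _ ENNReal.ofReal_ne_top]
      refine (mul_le_mul' ih le_rfl).trans ?_
      rw [← ENNReal.ofReal_mul (by positivity)]
      refine ENNReal.ofReal_le_ofReal ?_
      push_cast
      rw [div_mul_div_comm, one_mul, div_le_div_iff₀ (by positivity) (by positivity)]
      nlinarith
  have hm : ∀ n, Measurable fun ω => ENNReal.ofReal (Real.exp (-(C * τ n ω))) := fun n => by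
    have := h.measurable_time n
    fun_prop
  have hY : ∫⁻ ω, ⨅ n, ENNReal.ofReal (Real.exp (-(C * τ n ω))) ∂P = 0 := by
    refine le_antisymm ?_ zero_le
    have h1 : Tendsto (fun n : ℕ => ENNReal.ofReal (1 / ((n : ℝ) + 1))) atTop (𝓝 0) := by
      have := ENNReal.tendsto_ofReal (tendsto_one_div_add_atTop_nhds_zero_nat (𝕜 := ℝ))
      simpa using this
    refine ge_of_tendsto' h1 fun n => ?_
    exact (lintegral_mono fun ω => iInf_le _ n).trans (hE n)
  rw [lintegral_eq_zero_iff (Measurable.iInf hm)] at hY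
  filter_upwards [hY, ae_lt h] with ω h1 h2
  have hmono : Monotone fun n => τ n ω := monotone_nat_of_le_succ fun n => (h2 n).le
  rw [tendsto_atTop_atTop]
  intro M
  have h3 : (⨅ n, ENNReal.ofReal (Real.exp (-(C * τ n ω)))) <
      ENNReal.ofReal (Real.exp (-(C * M))) := by
    simp only [Pi.zero_apply] at h1
    rw [h1]
    simp [Real.exp_pos]
  obtain ⟨n, hn⟩ := iInf_lt_iff.1 h3
  rw [ENNReal.ofReal_lt_ofReal_iff (Real.exp_pos _), Real.exp_lt_exp] at hn
  refine ⟨n, fun a ha => ?_⟩
  have h4 : M < τ n ω := by nlinarith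
  exact h4.le.trans (hmono ha)

end Pool.Agent.Q287.BP
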