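import Mathlib
import Pool.Agent.Q287.BP.Defs
import Pool.Agent.Q287.BP.Chain
import Pool.Agent.Q287.BP.Basic

open MeasureTheory Set Filter Topology
open scoped NNReal ENNReal

namespace Pool.Agent.Q287.BP

lemma one_sub_exp_neg_ge {y : ℝ} (hy : 0 ≤ y) : y - y ^ 2 / 2 ≤ 1 - Real.exp (-y) := by
  have h1 := Real.quadratic_le_exp_of_nonneg hy
  have h2 : Real.exp (-y) * Real.exp y = 1 := by rw [← Real.exp_add]; simp
  have h3 : 0 < Real.exp (-y) := Real.exp_pos _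
  have h4 : Real.exp (-y) * (1 + y + y ^ 2 / 2) ≤ 1 := by
    calc _ ≤ Real.exp (-y) * Real.exp y := mul_le_mul_of_nonneg_left h1 h3.le
      _ = 1 := h2
  have h5 : 0 < 1 + y + y ^ 2 / 2 := by positivity
  have h6 : Real.exp (-y) ≤ 1 / (1 + y + y ^ 2 / 2) := by
    rw [le_div_iff₀ h5]
    exact h4
  have h7 : 1 / (1 + y + y ^ 2 / 2) ≤ 1 - y + y ^ 2 / 2 := by
    rw [div_le_iff₀ h5]
    nlinarith [pow_nonneg hy 4, sq_nonneg (y ^ 2)]
  linarith

lemma integral_poly (f₀ ℓ θ c : ℝ) :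
    ∫ x in f₀..(f₀ + ℓ), c * (θ * (x - f₀) - θ ^ 2 * (x - f₀) ^ 2 / 2) =
      c * (θ * ℓ ^ 2 / 2 - θ ^ 2 * ℓ ^ 3 / 6) := by
  have h1 : ∫ x in f₀..(f₀ + ℓ), c * (θ * (x - f₀) - θ ^ 2 * (x - f₀) ^ 2 / 2) =
      ∫ x in (f₀ - f₀)..(f₀ + ℓ - f₀), c * (θ * x - θ ^ 2 * x ^ 2 / 2) :=
    intervalIntegral.integral_comp_sub_right
      (fun x => c * (θ * x - θ ^ 2 * x ^ 2 / 2)) f₀
  rw [h1]
  have h2 : ∀ x : ℝ, HasDerivAt (fun x : ℝ => c * (θ * x ^ 2 / 2 - θ ^ 2 * x ^ 3 / 6))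
      (c * (θ * x - θ ^ 2 * x ^ 2 / 2)) x := by
    intro x
    have h3 : HasDerivAt (fun x : ℝ => x ^ 2) (2 * x) x := by
      simpa using hasDerivAt_pow 2 x
    have h4 : HasDerivAt (fun x : ℝ => x ^ 3) (3 * x ^ 2) x := by
      simpa using hasDerivAt_pow 3 x
    have h5 := (((h3.const_mul θ).div_const 2).sub ((h4.const_mul (θ ^ 2)).div_const 6)).const_mul c
    refine h5.congr_deriv ?_
    ring
  rw [intervalIntegral.integral_eq_sub_of_hasDerivAt (fun x _ => h2 x)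
    ((by fun_prop : Continuous fun x : ℝ => c * (θ * x - θ ^ 2 * x ^ 2 / 2)).intervalIntegrable _ _)]
  simp

lemma front_integral {f₀ θ ℓ κ : ℝ} {f' : ℝ → ℝ} (hf' : Measurable f') {β : ℝ → ℝ≥0}
    (hβ : Measurable β) (hfin : ∫⁻ x, (β x : ℝ≥0∞) ≠ ∞) (hθ : 0 ≤ θ) (hℓ : 0 ≤ ℓ) (hκ : 0 ≤ κ)
    (hθℓ : θ * ℓ ≤ 2) (h1 : ∀ x, f₀ ≤ f' x)
    (h2 : ∀ x, f₀ < x → x ≤ f₀ + ℓ → x ≤ f' x ∧ κ ≤ β x) :
    ∫⁻ x, ENNReal.ofReal (Real.exp (-(θ * f' x))) * β x ≤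
      ENNReal.ofReal (Real.exp (-(θ * f₀)) *
        ((∫⁻ x, (β x : ℝ≥0∞)).toReal - κ * (θ * ℓ ^ 2 / 2 - θ ^ 2 * ℓ ^ 3 / 6))) := by
  set c : ℝ := κ * Real.exp (-(θ * f₀)) with hc
  have hc0 : 0 ≤ c := by positivity
  set q : ℝ → ℝ := fun x => c * (θ * (x - f₀) - θ ^ 2 * (x - f₀) ^ 2 / 2) with hq
  have hq0 : ∀ x, f₀ < x → x ≤ f₀ + ℓ → 0 ≤ q x := by
    intro x hx hx'
    have h3 : 0 ≤ θ * (x - f₀) := mul_nonneg hθ (by linarith)
    have h4 : θ * (x - f₀) ≤ 2 := (mul_le_mul_of_nonneg_left (by linarith) hθ).trans hθℓ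
    simp only [hq]
    refine mul_nonneg hc0 ?_
    nlinarith
  have hpt : ∀ x, ENNReal.ofReal (Real.exp (-(θ * f' x))) * β x +
      (Ioc f₀ (f₀ + ℓ)).indicator (fun x => ENNReal.ofReal (q x)) x ≤
      ENNReal.ofReal (Real.exp (-(θ * f₀))) * β x := by
    intro x
    by_cases hx : x ∈ Ioc f₀ (f₀ + ℓ)
    · rw [indicator_of_mem hx]
      obtain ⟨h3, h4⟩ := h2 x hx.1 hx.2
      have h5 : ((β x : ℝ≥0) : ℝ≥0∞) = ENNReal.ofReal (β x : ℝ) := by
        simp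
      rw [h5, ← ENNReal.ofReal_mul (Real.exp_pos _).le, ← ENNReal.ofReal_mul (Real.exp_pos _).le,
        ← ENNReal.ofReal_add (by positivity) (hq0 x hx.1 hx.2)]
      refine ENNReal.ofReal_le_ofReal ?_
      have h6 : Real.exp (-(θ * f' x)) ≤ Real.exp (-(θ * f₀)) * Real.exp (-(θ * (x - f₀))) := by
        rw [← Real.exp_add]
        refine Real.exp_le_exp.2 ?_
        have := mul_le_mul_of_nonneg_left h3 hθ
        linarith
      have h7 := one_sub_exp_neg_ge (y := θ * (x - f₀)) (mul_nonneg hθ (by linarith [hx.1]))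
      have h8 : (0 : ℝ) < Real.exp (-(θ * f₀)) := Real.exp_pos _
      have h9 : Real.exp (-(θ * (x - f₀))) ≤ 1 := by
        refine Real.exp_le_one_iff.2 ?_
        have := mul_nonneg hθ (sub_nonneg.2 hx.1.le)
        linarith
      have h10 : 0 ≤ (β x : ℝ) := (β x).2
      calc Real.exp (-(θ * f' x)) * (β x : ℝ) + q x
          ≤ Real.exp (-(θ * f₀)) * Real.exp (-(θ * (x - f₀))) * β x +
            (β x : ℝ) * Real.exp (-(θ * f₀)) * (1 - Real.exp (-(θ * (x - f₀)))) := by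
            refine add_le_add (mul_le_mul_of_nonneg_right h6 h10) ?_
            simp only [hq, hc]
            have h11 : θ * (x - f₀) - θ ^ 2 * (x - f₀) ^ 2 / 2 ≤
                1 - Real.exp (-(θ * (x - f₀))) := by
              have : (θ * (x - f₀)) ^ 2 = θ ^ 2 * (x - f₀) ^ 2 := by ring
              rw [this] at h7
              exact h7
            calc κ * Real.exp (-(θ * f₀)) * (θ * (x - f₀) - θ ^ 2 * (x - f₀) ^ 2 / 2)
                ≤ κ * Real.exp (-(θ * f₀)) * (1 - Real.exp (-(θ * (x - f₀)))) :=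
                  mul_le_mul_of_nonneg_left h11 (by positivity)
              _ ≤ (β x : ℝ) * Real.exp (-(θ * f₀)) * (1 - Real.exp (-(θ * (x - f₀)))) := by
                  refine mul_le_mul_of_nonneg_right ?_ (by linarith)
                  exact mul_le_mul_of_nonneg_right h4 h8.le
        _ = Real.exp (-(θ * f₀)) * β x := by ring
    · rw [indicator_of_notMem hx, add_zero]
      refine mul_le_mul' (ENNReal.ofReal_le_ofReal (Real.exp_le_exp.2 ?_)) le_rfl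
      have := mul_le_mul_of_nonneg_left (h1 x) hθ
      linarith
  have hint : (∫⁻ x, ENNReal.ofReal (Real.exp (-(θ * f' x))) * β x) +
      (∫⁻ x, (Ioc f₀ (f₀ + ℓ)).indicator (fun x => ENNReal.ofReal (q x)) x) ≤
      ENNReal.ofReal (Real.exp (-(θ * f₀))) * ∫⁻ x, (β x : ℝ≥0∞) := by
    rw [← lintegral_const_mul _ hβ.coe_nnreal_ennreal, ← lintegral_add_left]
    · exact lintegral_mono hpt
    · have := hβ.coe_nnreal_ennreal
      fun_prop
  have hI : ∫⁻ x, (Ioc f₀ (f₀ + ℓ)).indicator (fun x => ENNReal.ofReal (q x)) x =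
      ENNReal.ofReal (c * (θ * ℓ ^ 2 / 2 - θ ^ 2 * ℓ ^ 3 / 6)) := by
    rw [lintegral_indicator measurableSet_Ioc, ← ofReal_integral_eq_lintegral_ofReal]
    · rw [← intervalIntegral.integral_of_le (by linarith), integral_poly]
    · exact ((by fun_prop : Continuous q).integrableOn_Ioc)
    · refine (ae_restrict_iff' measurableSet_Ioc).2 (ae_of_all _ fun x hx => hq0 x hx.1 hx.2)
  rw [hI] at hint
  set R := (∫⁻ x, (β x : ℝ≥0∞)).toReal with hR
  rw [← ENNReal.ofReal_toReal hfin, ← hR, ← ENNReal.ofReal_mul (Real.exp_pos _).le] at hint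
  have hJ0 : 0 ≤ c * (θ * ℓ ^ 2 / 2 - θ ^ 2 * ℓ ^ 3 / 6) := by
    refine mul_nonneg hc0 ?_
    have h3 : 0 ≤ θ * ℓ := mul_nonneg hθ hℓ
    have : θ * ℓ ^ 2 / 2 - θ ^ 2 * ℓ ^ 3 / 6 = (θ * ℓ) * ℓ * (1 / 2 - (θ * ℓ) / 6) := by ring
    rw [this]
    exact mul_nonneg (mul_nonneg h3 hℓ) (by linarith)
  have h3 := ENNReal.le_sub_of_add_le_right ENNReal.ofReal_ne_top hint
  rw [← ENNReal.ofReal_sub _ hJ0] at h3
  refine h3.trans (ENNReal.ofReal_le_ofReal (le_of_eq ?_))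
  rw [hc]
  ring

end Pool.Agent.Q287.BP
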