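import Mathlib
import Pool.Agent.Q287.BP.Defs
import Pool.Agent.Q287.BP.Chain
import Pool.Agent.Q287.BP.Basic
import Pool.Agent.Q287.BP.Lower

open MeasureTheory Set Filter Topology
open scoped NNReal ENNReal

namespace Pool.Agent.Q287.BP

/-- The first birth is at distance at most one from the origin. -/
def Good {m : ℕ} (v : Fin (m + 2) → ℝ) : Prop := v 0 = 0 ∧ v 1 ≠ 0 ∧ |v 1| ≤ 1

lemma measurableSet_good {m : ℕ} : MeasurableSet {v : Fin (m + 2) → ℝ | Good v} := by
  unfold Good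
  have h0 : Measurable fun v : Fin (m + 2) → ℝ => v 0 := measurable_pi_apply 0
  have h1 : Measurable fun v : Fin (m + 2) → ℝ => v 1 := measurable_pi_apply 1
  refine (measurableSet_eq_fun h0 measurable_const).inter
    (MeasurableSet.inter ?_ (measurableSet_le h1.abs measurable_const))
  exact (measurableSet_eq_fun h1 measurable_const).compl

lemma good_snoc {m : ℕ} {v : Fin (m + 2) → ℝ} (hv : Good v) (x : ℝ) :
    Good (Fin.snoc v x : Fin (m + 1 + 2) → ℝ) := by
  have h0 : (Fin.snoc v x : Fin (m + 1 + 2) → ℝ) 0 = v 0 := by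
    have : (0 : Fin (m + 1 + 2)) = Fin.castSucc (0 : Fin (m + 2)) := rfl
    rw [this, Fin.snoc_castSucc]
  have h1 : (Fin.snoc v x : Fin (m + 1 + 2) → ℝ) 1 = v 1 := by
    have : (1 : Fin (m + 1 + 2)) = Fin.castSucc (1 : Fin (m + 2)) := rfl
    rw [this, Fin.snoc_castSucc]
  unfold Good
  rw [h0, h1]
  exact hv

lemma pos_hist_succ {Ω : Type*} (τ X : ℕ → Ω → ℝ) (n : ℕ) (ω : Ω) :
    pos (hist τ X (n + 1) ω) = (Fin.snoc (pos (hist τ X n ω)) (X (n + 1) ω) :
      Fin (n + 1 + 1) → ℝ) := by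
  funext k
  refine Fin.lastCases ?_ (fun j => ?_) k
  · rw [Fin.snoc_last]
    rfl
  · rw [Fin.snoc_castSucc]
    rfl

lemma measurable_snoc {m : ℕ} : Measurable fun q : (Fin m → ℝ × ℝ) × ℝ =>
    (Fin.snoc (pos q.1) q.2 : Fin (m + 1) → ℝ) := by
  rw [measurable_pi_iff]
  intro k
  refine Fin.lastCases ?_ (fun j => ?_) k
  · simp only [Fin.snoc_last]
    exact measurable_snd
  · simp only [Fin.snoc_castSucc]
    exact (measurable_pi_apply j).comp (measurable_pos.comp measurable_fst)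

variable {Ω : Type*} [MeasurableSpace Ω] {b : ℝ → Finset ℝ → ℝ≥0} {P : Measure Ω}
  {τ X : ℕ → Ω → ℝ}

lemma good_iff (h : IsBirthProcess b P τ X) (m : ℕ) (ω : Ω) :
    Good (pos (hist τ X (m + 1) ω)) ↔ X 1 ω ≠ 0 ∧ |X 1 ω| ≤ 1 := by
  unfold Good
  have h0 : pos (hist τ X (m + 1) ω) 0 = 0 := by
    show X ((0 : Fin (m + 2)) : ℕ) ω = 0
    simp [h.pos_zero]
  have h1 : pos (hist τ X (m + 1) ω) 1 = X 1 ω := by
    show X ((1 : Fin (m + 2)) : ℕ) ω = X 1 ω
    simp
  rw [h0, h1]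
  simp

/-- the good event -/
def goodEvent (X : ℕ → Ω → ℝ) : Set Ω := {ω | X 1 ω ≠ 0 ∧ |X 1 ω| ≤ 1}

lemma measurableSet_goodEvent (h : IsBirthProcess b P τ X) : MeasurableSet (goodEvent X) := by
  have := h.measurable_pos 1
  exact (measurableSet_eq_fun this measurable_const).compl.inter
    (measurableSet_le this.abs measurable_const)

lemma goodEvent_pos [IsProbabilityMeasure P] (h : IsBirthProcess b P τ X)
    (hb : ∀ n : ℕ, Measurable fun p : ℝ × (Fin n → ℝ) => b p.1 (Finset.univ.image p.2))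
    (hfin : totalRate b {0} ≠ ∞) (h0 : ∀ x : ℝ, |x| ≤ 1 → 1 ≤ b x {0}) :
    P (goodEvent X) ≠ 0 := by
  have hset : MeasurableSet {x : ℝ | x ≠ 0 ∧ |x| ≤ 1} :=
    (measurableSet_eq_fun measurable_id measurable_const).compl.inter
      (measurableSet_le measurable_id.abs measurable_const)
  have hH : Measurable fun q : (Fin (0 + 1) → ℝ × ℝ) × ℝ =>
      {x : ℝ | x ≠ 0 ∧ |x| ≤ 1}.indicator (1 : ℝ → ℝ≥0∞) q.2 :=
    (measurable_one.indicator hset).comp measurable_snd
  have hc : ∀ ω, config X 0 ω = {0} := by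
    intro ω
    unfold config
    ext z
    simp [h.pos_zero, eq_comm]
  have hvol : (2 : ℝ≥0∞) ≤ ∫⁻ x, {x : ℝ | x ≠ 0 ∧ |x| ≤ 1}.indicator (1 : ℝ → ℝ≥0∞) x *
      b x {0} := by
    have h1 : ∫⁻ x in Ioc (0 : ℝ) 1 ∪ Ico (-1 : ℝ) 0, (1 : ℝ≥0∞) = 2 := by
      rw [lintegral_const, one_mul, Measure.restrict_apply MeasurableSet.univ, univ_inter,
        measure_union _ measurableSet_Ico, Real.volume_Ioc, Real.volume_Ico]
      · simp
        norm_num
      · rw [Set.disjoint_left]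
        intro x hx hx'
        exact absurd hx.1 (not_lt.2 hx'.2.le)
    rw [← h1, ← lintegral_indicator (measurableSet_Ioc.union measurableSet_Ico)]
    refine lintegral_mono fun x => ?_
    by_cases hx : x ∈ Ioc (0 : ℝ) 1 ∪ Ico (-1 : ℝ) 0
    · have h2 : x ∈ {x : ℝ | x ≠ 0 ∧ |x| ≤ 1} := by
        rcases hx with hx | hx
        · exact ⟨hx.1.ne', abs_le.2 ⟨by linarith [hx.1], hx.2⟩⟩
        · exact ⟨hx.2.ne, abs_le.2 ⟨hx.1, by linarith [hx.2]⟩⟩
      rw [indicator_of_mem hx, indicator_of_mem h2]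
      simpa using h0 x h2.2
    · rw [indicator_of_notMem hx]
      exact zero_le
  have hB : 0 < (totalRate b {0}).toReal := by
    refine ENNReal.toReal_pos ?_ hfin
    intro hz
    have h2 : (∫⁻ x, {x : ℝ | x ≠ 0 ∧ |x| ≤ 1}.indicator (1 : ℝ → ℝ≥0∞) x * b x {0}) ≤
        totalRate b {0} := by
      unfold totalRate
      refine lintegral_mono fun x => ?_
      by_cases hx : x ∈ {x : ℝ | x ≠ 0 ∧ |x| ≤ 1}
      · rw [indicator_of_mem hx]; simp
      · rw [indicator_of_notMem hx]; simp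
    rw [hz] at h2
    have := hvol.trans h2
    simp at this
  have h1 := step_exp h hb 0 0 (Q := fun _ => 1) measurable_const hH (fun ω _ => by
    rw [hc ω, zero_add]
    exact hB)
  have h2 : ∀ ω, (1 : ℝ≥0∞) * ENNReal.ofReal (Real.exp (-(0 * (τ (0 + 1) ω - τ 0 ω)))) *
      {x : ℝ | x ≠ 0 ∧ |x| ≤ 1}.indicator (1 : ℝ → ℝ≥0∞) (X (0 + 1) ω) =
      (goodEvent X).indicator 1 ω := by
    intro ω
    simp only [zero_mul, neg_zero, Real.exp_zero, ENNReal.ofReal_one, one_mul, zero_add]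
    rfl
  simp only [h2] at h1
  rw [lintegral_indicator (measurableSet_goodEvent h)] at h1
  simp only [Pi.one_apply, lintegral_const, one_mul, Measure.restrict_apply MeasurableSet.univ,
    univ_inter] at h1
  rw [h1]
  simp only [hc, zero_add]
  rw [lintegral_const, measure_univ, mul_one]
  refine mul_ne_zero ?_ ?_
  · rw [ENNReal.ofReal_ne_zero_iff]
    positivity
  · intro hz
    rw [hz] at hvol
    simp at hvol

end Pool.Agent.Q287.BP
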