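import Mathlib
import Pool.Agent.Q287.BP.Lower2

open MeasureTheory Set Filter Topology
open scoped NNReal ENNReal

namespace Pool.Agent.Q287.BP

/-- right end points of pairs at distance at most one -/
def Seed (S : Set ℝ) (z : ℝ) : Prop := z ∈ S ∧ ∃ y ∈ S, z - 1 ≤ y ∧ y < z

structure IsFront (S : Set ℝ) (B : ℝ) : Prop where
  mem : Seed S B ∨ B = 0
  le : ∀ z, Seed S z → z ≤ B
  nonneg : 0 ≤ B

lemma IsFront.seed {S : Set ℝ} {B : ℝ} (h : IsFront S B) (h0 : (0 : ℝ) ∈ S)
    (h1 : ∃ y ∈ S, y ≠ 0 ∧ |y| ≤ 1) : Seed S B := by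
  rcases h.mem with h2 | h2
  · exact h2
  · obtain ⟨y, hy, hy0, hy1⟩ := h1
    rcases lt_or_gt_of_ne hy0 with h3 | h3
    · rw [h2]
      exact ⟨h0, y, hy, by linarith [(abs_le.1 hy1).1], h3⟩
    · have := h.le y ⟨hy, 0, h0, by linarith [(abs_le.1 hy1).2], h3⟩
      linarith

section
variable {S : Set ℝ} {B B' x : ℝ}

/-- points above the front are isolated -/
lemma lt_of_above (h : IsFront S B) (hB : Seed S B) {w : ℝ} (hw : w ∈ S) (hwB : B < w) :
    B + 1 < w := by
  by_contra hc
  push Not at hc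
  have := h.le w ⟨hw, B, hB.1, by linarith, hwB⟩
  linarith

lemma front_mono (h : IsFront S B) (h' : IsFront (insert x S) B') : B ≤ B' := by
  rcases h.mem with h2 | h2
  · obtain ⟨h3, y, hy, h4⟩ := h2
    exact h'.le B ⟨mem_insert_of_mem _ h3, y, mem_insert_of_mem _ hy, h4⟩
  · rw [h2]; exact h'.nonneg

lemma front_below (h : IsFront S B) (hB : Seed S B) (h' : IsFront (insert x S) B')
    (hx : x ≤ B) : B' = B := by
  refine le_antisymm ?_ (front_mono h h')
  rcases h'.mem with h2 | h2
  · obtain ⟨h3, y, hy, h4, h5⟩ := h2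
    rcases h3 with h3 | h3
    · rw [h3]; exact hx
    rcases hy with hy | hy
    · by_contra hc
      push Not at hc
      have := lt_of_above h hB h3 hc
      linarith
    · exact h.le B' ⟨h3, y, hy, h4, h5⟩
  · rw [h2]; exact h.nonneg

lemma front_near_ge (hB : Seed S B) (h' : IsFront (insert x S) B') (hx : B < x)
    (hx' : x ≤ B + 1) : x ≤ B' :=
  h'.le x ⟨mem_insert _ _, B, mem_insert_of_mem _ hB.1, by linarith, hx⟩

lemma front_le_of_gt (h : IsFront S B) (h' : IsFront (insert x S) B') (hx : B < x) :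
    B' ≤ x ∨ ∃ w ∈ S, x < w ∧ w ≤ x + 1 ∧ B' ≤ w := by
  rcases h'.mem with h2 | h2
  · obtain ⟨h3, y, hy, h4, h5⟩ := h2
    rcases h3 with h3 | h3
    · left; exact h3.le
    rcases hy with hy | hy
    · right
      exact ⟨B', h3, by rw [← hy]; exact h5, by linarith, le_rfl⟩
    · left
      exact (h.le B' ⟨h3, y, hy, h4, h5⟩).trans hx.le
  · left
    rw [h2]
    exact h.nonneg.trans hx.le

/-- a new point close to an isolated point -/
lemma front_pair_ge (h' : IsFront (insert x S) B') {w : ℝ} (hw : w ∈ S) (hne : w ≠ x)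
    (hxw : |x - w| ≤ 1) : x ≤ B' := by
  rcases lt_or_gt_of_ne hne with h2 | h2
  · exact h'.le x ⟨mem_insert _ _, w, mem_insert_of_mem _ hw, by linarith [(abs_le.1 hxw).2], h2⟩
  · have := h'.le w ⟨mem_insert_of_mem _ hw, x, mem_insert _ _, by linarith [(abs_le.1 hxw).1], h2⟩
    linarith

/-- a new isolated point -/
lemma front_isolated (h : IsFront S B) (h' : IsFront (insert x S) B')
    (hx : ∀ w ∈ S, 1 < |x - w|) : B' = B := by
  refine le_antisymm ?_ (front_mono h h')
  rcases h'.mem with h2 | h2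
  · obtain ⟨h3, y, hy, h4, h5⟩ := h2
    rcases h3 with h3 | h3
    · rcases hy with hy | hy
      · linarith
      · have := hx y hy
        rw [abs_of_nonneg (by linarith)] at this
        linarith
    rcases hy with hy | hy
    · have := hx B' h3
      rw [abs_of_neg (by linarith)] at this
      linarith
    · exact h.le B' ⟨h3, y, hy, h4, h5⟩
  · rw [h2]; exact h.nonneg

end

/-- the front of the dense part -/
noncomputable def Bf {m : ℕ} (v : Fin (m + 2) → ℝ) : ℝ := by
  classical
  exact Finset.univ.sup' Finset.univ_nonempty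
    (fun i => if ∃ j, v i - 1 ≤ v j ∧ v j < v i then v i else 0)

/-- the position of the rightmost particle -/
noncomputable def Ff {m : ℕ} (v : Fin (m + 2) → ℝ) : ℝ :=
  Finset.univ.sup' Finset.univ_nonempty v

lemma measurable_Ff {m : ℕ} : Measurable (Ff : (Fin (m + 2) → ℝ) → ℝ) := by
  have := Finset.measurable_sup' (s := (Finset.univ : Finset (Fin (m + 2))))
    Finset.univ_nonempty (f := fun i (v : Fin (m + 2) → ℝ) => v i)
    (fun i _ => measurable_pi_apply i)
  convert this using 1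
  funext v
  simp [Ff, Finset.sup'_apply]

lemma measurable_Bf {m : ℕ} : Measurable (Bf : (Fin (m + 2) → ℝ) → ℝ) := by
  classical
  have := Finset.measurable_sup' (s := (Finset.univ : Finset (Fin (m + 2))))
    Finset.univ_nonempty (f := fun i (v : Fin (m + 2) → ℝ) =>
      if ∃ j, v i - 1 ≤ v j ∧ v j < v i then v i else 0)
    (fun i _ => by
      refine Measurable.ite ?_ (measurable_pi_apply i) measurable_const
      have h1 : {a : Fin (m + 2) → ℝ | ∃ j, a i - 1 ≤ a j ∧ a j < a i} =
          ⋃ j, {a : Fin (m + 2) → ℝ | a i - 1 ≤ a j ∧ a j < a i} := by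
        ext a; simp
      rw [h1]
      refine MeasurableSet.iUnion fun j => ?_
      have hi : Measurable fun a : Fin (m + 2) → ℝ => a i := measurable_pi_apply i
      have hj : Measurable fun a : Fin (m + 2) → ℝ => a j := measurable_pi_apply j
      exact (measurableSet_le (hi.sub_const 1) hj).inter (measurableSet_lt hj hi))
  convert this using 1
  funext v
  simp only [Bf, Finset.sup'_apply]

lemma isFront_Bf {m : ℕ} {v : Fin (m + 2) → ℝ} (hv : v 0 = 0) : IsFront (range v) (Bf v) := by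
  classical
  have hle : ∀ i : Fin (m + 2), (if ∃ j, v i - 1 ≤ v j ∧ v j < v i then v i else 0) ≤ Bf v := by
    intro i
    have := Finset.le_sup' (s := Finset.univ)
      (fun i => if ∃ j, v i - 1 ≤ v j ∧ v j < v i then v i else 0) (Finset.mem_univ i)
    unfold Bf
    convert this
  have hmem : ∃ i : Fin (m + 2), Bf v = (if ∃ j, v i - 1 ≤ v j ∧ v j < v i then v i else 0) := by
    obtain ⟨i, _, hi⟩ := Finset.exists_mem_eq_sup' (s := Finset.univ) Finset.univ_nonempty
      (fun i => if ∃ j, v i - 1 ≤ v j ∧ v j < v i then v i else 0)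
    refine ⟨i, ?_⟩
    rw [← hi]
    unfold Bf
    congr!
  refine ⟨?_, ?_, ?_⟩
  · obtain ⟨i, hi⟩ := hmem
    split_ifs at hi with h1
    · left
      rw [hi]
      obtain ⟨j, hj⟩ := h1
      exact ⟨mem_range_self i, v j, mem_range_self j, hj⟩
    · right
      exact hi
  · rintro z ⟨⟨i, rfl⟩, y, ⟨j, rfl⟩, hj⟩
    have := hle i
    rw [if_pos ⟨j, hj⟩] at this
    exact this
  · have := hle 0
    simp only [hv, ite_self] at this
    exact this

lemma range_snoc {m : ℕ} (v : Fin m → ℝ) (x : ℝ) :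
    range (Fin.snoc v x : Fin (m + 1) → ℝ) = insert x (range v) := by
  ext z
  constructor
  · rintro ⟨i, rfl⟩
    refine Fin.lastCases ?_ (fun j => ?_) i
    · rw [Fin.snoc_last]; exact mem_insert _ _
    · rw [Fin.snoc_castSucc]; exact mem_insert_of_mem _ (mem_range_self j)
  · rintro (h | ⟨j, rfl⟩)
    · exact ⟨Fin.last m, by rw [Fin.snoc_last, h]⟩
    · exact ⟨j.castSucc, by rw [Fin.snoc_castSucc]⟩

lemma Good.front {m : ℕ} {v : Fin (m + 2) → ℝ} (hv : Good v) : IsFront (range v) (Bf v) :=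
  isFront_Bf hv.1

lemma Good.seed {m : ℕ} {v : Fin (m + 2) → ℝ} (hv : Good v) : Seed (range v) (Bf v) := by
  refine hv.front.seed ⟨0, hv.1⟩ ⟨v 1, mem_range_self 1, hv.2⟩

lemma Good.front_snoc {m : ℕ} {v : Fin (m + 2) → ℝ} (hv : Good v) (x : ℝ) :
    IsFront (insert x (range v)) (Bf (Fin.snoc v x : Fin (m + 1 + 2) → ℝ)) := by
  have h1 := (good_snoc hv x).front
  rwa [range_snoc (m := m + 2) v x] at h1

end Pool.Agent.Q287.BP
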