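import Mathlib
import Pool.Agent.Q287.BP.Defs
import Pool.Agent.Q287.BP.Chain
import Pool.Agent.Q287.BP.Basic
import Pool.Agent.Q287.BP.Lower
import Pool.Agent.Q287.BP.Lower2

open MeasureTheory Set Filter Topology
open scoped NNReal ENNReal

namespace Pool.Agent.Q287.BP

variable {b : ℝ → Finset ℝ → ℝ≥0}

lemma rate_ne_top {C : ℝ} (hrate : ∀ η : Finset ℝ, totalRate b η ≤ ENNReal.ofReal (C * η.card))
    (η : Finset ℝ) : totalRate b η ≠ ∞ :=
  ne_top_of_le_ne_top ENNReal.ofReal_ne_top (hrate η)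

theorem speed_ge
    (hb : ∀ n : ℕ, Measurable fun p : ℝ × (Fin n → ℝ) => b p.1 (Finset.univ.image p.2))
    {C : ℝ} (hC : 0 < C) (hrate : ∀ η : Finset ℝ, totalRate b η ≤ ENNReal.ofReal (C * η.card))
    (h0 : ∀ x : ℝ, |x| ≤ 1 → 1 ≤ b x {0})
    {f : ∀ m : ℕ, (Fin (m + 2) → ℝ) → ℝ} (hf : ∀ m, Measurable (f m))
    (hfle : ∀ m (v : Fin (m + 2) → ℝ), Good v → ∃ i, f m v ≤ v i)
    (hf0 : ∀ v : Fin (0 + 2) → ℝ, Good v → 0 ≤ f 0 v)
    {θ κ ℓ : ℝ} (hθ : 0 < θ) (hκ : 0 < κ) (hℓ : 0 < ℓ) (hθℓ : θ * ℓ ≤ 1)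
    (hmono : ∀ m (v : Fin (m + 2) → ℝ) x, Good v →
      f m v ≤ f (m + 1) (Fin.snoc v x : Fin (m + 1 + 2) → ℝ))
    (hx : ∀ m (v : Fin (m + 2) → ℝ) x, Good v → f m v < x → x ≤ f m v + ℓ →
      x ≤ f (m + 1) (Fin.snoc v x : Fin (m + 1 + 2) → ℝ) ∧
        κ ≤ (b x (Finset.univ.image v) : ℝ))
    {s : ℝ} (hs : IsSpeed b s) : κ * (ℓ ^ 2 / 2 - θ * ℓ ^ 3 / 6) ≤ s := by
  obtain ⟨Ω, mΩ, P, τ, X, r, hP, h, hr, hs0, hshape⟩ := hs
  set J : ℝ := θ * ℓ ^ 2 / 2 - θ ^ 2 * ℓ ^ 3 / 6 with hJ
  set lam : ℝ := κ * J with hlam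
  have hlam' : lam = θ * (κ * (ℓ ^ 2 / 2 - θ * ℓ ^ 3 / 6)) := by
    rw [hlam, hJ]; ring
  by_contra hcon
  push Not at hcon
  have hsl : θ * s < lam := by
    rw [hlam']
    exact mul_lt_mul_of_pos_left hcon hθ
  -- rates are larger than `lam`
  have hJ0 : J ≤ ℓ / 2 := by
    have h1 : θ * ℓ * ℓ ≤ 1 * ℓ := mul_le_mul_of_nonneg_right hθℓ hℓ.le
    have h2 : 0 ≤ θ ^ 2 * ℓ ^ 3 / 6 := by positivity
    rw [hJ]
    nlinarith
  have hB : ∀ m ω, Good (pos (hist τ X (m + 1) ω)) →
      lam < (totalRate b (config X (m + 1) ω)).toReal := by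
    intro m ω hg
    set v := pos (hist τ X (m + 1) ω) with hv
    have h1 : ENNReal.ofReal (κ * ℓ) ≤ totalRate b (config X (m + 1) ω) := by
      unfold totalRate
      have h2 : ∫⁻ x in Ioc (f m v) (f m v + ℓ), ENNReal.ofReal κ = ENNReal.ofReal (κ * ℓ) := by
        rw [lintegral_const, Measure.restrict_apply MeasurableSet.univ, univ_inter,
          Real.volume_Ioc, ← ENNReal.ofReal_mul hκ.le]
        congr 2
        ring
      rw [← h2, ← lintegral_indicator measurableSet_Ioc]
      refine lintegral_mono fun x => ?_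
      by_cases hxx : x ∈ Ioc (f m v) (f m v + ℓ)
      · rw [indicator_of_mem hxx]
        have h3 := (hx m v x hg hxx.1 hxx.2).2
        rw [config_eq τ, ← hv]
        exact ENNReal.ofReal_le_of_le_toReal (by simpa using h3)
      · rw [indicator_of_notMem hxx]
        exact zero_le
    have h2 : κ * ℓ ≤ (totalRate b (config X (m + 1) ω)).toReal := by
      rw [← ENNReal.ofReal_le_iff_le_toReal (rate_ne_top hrate _)]
      exact h1
    have h3 : lam ≤ κ * (ℓ / 2) := mul_le_mul_of_nonneg_left hJ0 hκ.le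
    have h4 : 0 < κ * ℓ := by positivity
    linarith
  -- the supermartingale
  set F : ℕ → Ω → ℝ := fun m ω => f m (pos (hist τ X (m + 1) ω)) with hF
  have hFm : ∀ m, Measurable (F m) := fun m =>
    (hf m).comp (measurable_pos.comp (measurable_hist h (m + 1)))
  set u : ℕ → Ω → ℝ≥0∞ := fun m ω => (goodEvent X).indicator
    (fun ω => ENNReal.ofReal (Real.exp (lam * (τ (m + 1) ω - τ 1 ω) - θ * F m ω))) ω with hu
  have hum : ∀ m, Measurable (u m) := by
    intro m
    refine Measurable.indicator ?_ (measurableSet_goodEvent h)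
    have h1 := h.measurable_time (m + 1)
    have h2 := h.measurable_time 1
    have h3 := hFm m
    fun_prop
  have hstep : ∀ m, ∫⁻ ω, u (m + 1) ω ∂P ≤ ∫⁻ ω, u m ω ∂P := by
    intro m
    have hQ : Measurable fun q : Fin (m + 1 + 1) → ℝ × ℝ =>
        {q : Fin (m + 2) → ℝ × ℝ | Good (pos q)}.indicator
          (fun q => ENNReal.ofReal (Real.exp (lam * ((q (Fin.last (m + 1))).1 - (q 1).1)))) q := by
      refine Measurable.indicator (by fun_prop) ?_
      exact measurable_pos measurableSet_good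
    have hH : Measurable fun q : (Fin (m + 1 + 1) → ℝ × ℝ) × ℝ =>
        ENNReal.ofReal (Real.exp (-(θ * f (m + 1) (Fin.snoc (pos q.1) q.2)))) := by
      have h1 := (hf (m + 1)).comp (measurable_snoc (m := m + 2))
      exact ENNReal.measurable_ofReal.comp (Real.measurable_exp.comp ((h1.const_mul θ).neg))
    have h1 := step_exp h hb (m + 1) (-lam) hQ hH (fun ω hω => by
      have hg : Good (pos (hist τ X (m + 1) ω)) := by
        by_contra hg
        exact hω (indicator_of_notMem (show hist τ X (m + 1) ω ∉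
          {q : Fin (m + 2) → ℝ × ℝ | Good (pos q)} from hg) _)
      have := hB m ω hg
      linarith)
    have h2 : ∀ ω, u (m + 1) ω = {q : Fin (m + 2) → ℝ × ℝ | Good (pos q)}.indicator
          (fun q => ENNReal.ofReal (Real.exp (lam * ((q (Fin.last (m + 1))).1 - (q 1).1))))
          (hist τ X (m + 1) ω) *
        ENNReal.ofReal (Real.exp (-(-lam * (τ (m + 1 + 1) ω - τ (m + 1) ω)))) *
        ENNReal.ofReal (Real.exp (-(θ * f (m + 1)
          (Fin.snoc (pos (hist τ X (m + 1) ω)) (X (m + 1 + 1) ω))))) := by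
      intro ω
      by_cases hg : ω ∈ goodEvent X
      · have hg' : hist τ X (m + 1) ω ∈ {q : Fin (m + 2) → ℝ × ℝ | Good (pos q)} :=
          (good_iff h m ω).2 hg
        simp only [hu]
        rw [indicator_of_mem hg, indicator_of_mem hg', ← ENNReal.ofReal_mul (Real.exp_pos _).le,
          ← ENNReal.ofReal_mul (by positivity), ← Real.exp_add, ← Real.exp_add]
        congr 2
        simp only [hF]
        rw [pos_hist_succ]
        have h3 : (hist τ X (m + 1) ω (Fin.last (m + 1))).1 = τ (m + 1) ω := by simp [hist]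
        have h4 : (hist τ X (m + 1) ω 1).1 = τ 1 ω := by simp [hist]
        rw [h3, h4]
        ring
      · have hg' : hist τ X (m + 1) ω ∉ {q : Fin (m + 2) → ℝ × ℝ | Good (pos q)} :=
          fun hc => hg ((good_iff h m ω).1 hc)
        simp only [hu]
        rw [indicator_of_notMem hg, indicator_of_notMem hg']
        simp
    simp only [h2]
    rw [h1]
    refine lintegral_mono fun ω => ?_
    by_cases hg : ω ∈ goodEvent X
    · have hg' : hist τ X (m + 1) ω ∈ {q : Fin (m + 2) → ℝ × ℝ | Good (pos q)} :=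
        (good_iff h m ω).2 hg
      simp only [hu]
      rw [indicator_of_mem hg, indicator_of_mem hg']
      set v := pos (hist τ X (m + 1) ω) with hv
      set R := (totalRate b (config X (m + 1) ω)).toReal with hR
      have hR' : lam < R := hB m ω hg'
      have h5 : ∫⁻ x, ENNReal.ofReal (Real.exp (-(θ * f (m + 1) (Fin.snoc v x)))) *
          b x (config X (m + 1) ω) ≤ ENNReal.ofReal (Real.exp (-(θ * F m ω)) * (R - lam)) := by
        have h6 := front_integral (f₀ := f m v) (θ := θ) (ℓ := ℓ) (κ := κ)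
          (f' := fun x => f (m + 1) (Fin.snoc v x))
          ((hf (m + 1)).comp ((measurable_snoc (m := m + 2)).comp
            (measurable_const (a := hist τ X (m + 1) ω) |>.prodMk measurable_id)))
          (measurable_rate hb v) (rate_ne_top hrate _) hθ.le hℓ.le hκ.le (by linarith)
          (fun x => hmono m v x hg') (fun x hx1 hx2 => hx m v x hg' hx1 hx2)
        exact h6
      have h7 : (hist τ X (m + 1) ω (Fin.last (m + 1))).1 = τ (m + 1) ω := by simp [hist]
      have h8 : (hist τ X (m + 1) ω 1).1 = τ 1 ω := by simp [hist]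
      rw [h7, h8]
      calc ENNReal.ofReal (Real.exp (lam * (τ (m + 1) ω - τ 1 ω))) *
            ENNReal.ofReal (1 / (-lam + R)) *
            ∫⁻ x, ENNReal.ofReal (Real.exp (-(θ * f (m + 1) (Fin.snoc v x)))) *
              b x (config X (m + 1) ω)
          ≤ ENNReal.ofReal (Real.exp (lam * (τ (m + 1) ω - τ 1 ω))) *
            ENNReal.ofReal (1 / (-lam + R)) *
            ENNReal.ofReal (Real.exp (-(θ * F m ω)) * (R - lam)) := mul_le_mul' le_rfl h5
        _ = ENNReal.ofReal (Real.exp (lam * (τ (m + 1) ω - τ 1 ω) - θ * F m ω)) := by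
            have h9 : 0 < -lam + R := by linarith
            rw [← ENNReal.ofReal_mul (Real.exp_pos _).le, ← ENNReal.ofReal_mul (by positivity)]
            congr 1
            rw [sub_eq_add_neg (lam * _), Real.exp_add]
            field_simp
            ring
    · have hg' : hist τ X (m + 1) ω ∉ {q : Fin (m + 2) → ℝ × ℝ | Good (pos q)} :=
        fun hc => hg ((good_iff h m ω).1 hc)
      rw [indicator_of_notMem hg']
      simp
  have hu0 : ∫⁻ ω, u 0 ω ∂P ≤ 1 := by
    have h1 : ∀ ω, u 0 ω ≤ 1 := by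
      intro ω
      by_cases hg : ω ∈ goodEvent X
      · simp only [hu]
        rw [indicator_of_mem hg]
        have h2 := hf0 _ ((good_iff h 0 ω).2 hg)
        rw [← ENNReal.ofReal_one]
        refine ENNReal.ofReal_le_ofReal (Real.exp_le_one_iff.2 ?_)
        have h3 : 0 ≤ θ * F 0 ω := mul_nonneg hθ.le h2
        simp only [zero_add, sub_self, mul_zero, zero_sub]
        linarith
      · simp only [hu]
        rw [indicator_of_notMem hg]
        exact zero_le
    calc ∫⁻ ω, u 0 ω ∂P ≤ ∫⁻ _, 1 ∂P := lintegral_mono h1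
      _ = 1 := by simp
  have hum1 : ∀ m, ∫⁻ ω, u m ω ∂P ≤ 1 := by
    intro m
    induction m with
    | zero => exact hu0
    | succ m ih => exact (hstep m).trans ih
  -- the contradiction
  obtain ⟨ε, hε0, hε1, hε⟩ : ∃ ε : ℝ, 0 < ε ∧ ε < 1 ∧ θ * ((1 + ε) * s) < lam := by
    have h1 : 0 < θ * s := by positivity
    refine ⟨min (1 / 2) ((lam - θ * s) / (2 * (θ * s))), lt_min (by norm_num)
      (div_pos (by linarith) (by positivity)),
      lt_of_le_of_lt (min_le_left _ _) (by norm_num), ?_⟩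
    have h2 := min_le_right (1 / 2 : ℝ) ((lam - θ * s) / (2 * (θ * s)))
    have h3 : (lam - θ * s) / (2 * (θ * s)) * (θ * s) = (lam - θ * s) / 2 := by
      field_simp
    have h4 := mul_le_mul_of_nonneg_right h2 h1.le
    rw [h3] at h4
    nlinarith
  have hlim : ∀ᵐ ω ∂P, (goodEvent X).indicator (fun _ => (∞ : ℝ≥0∞)) ω ≤
      liminf (fun m => u m ω) atTop := by
    filter_upwards [hshape ε hε0 hε1, ae_tendsto h hb hC hrate, ae_lt h] with ω h1 h2 h3
    by_cases hg : ω ∈ goodEvent X
    swap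
    · rw [indicator_of_notMem hg]; exact zero_le
    rw [indicator_of_mem hg]
    have h4 : ∀ᶠ n in atTop, occupied τ X r (τ n ω) ω ⊆
        Icc (-((1 + ε) * s * τ n ω)) ((1 + ε) * s * τ n ω) := by
      filter_upwards [h2.eventually h1] with n hn using hn.2
    have hmonoτ : Monotone fun n => τ n ω := monotone_nat_of_le_succ fun n => (h3 n).le
    have h5 : ∀ᶠ m in atTop, F m ω ≤ (1 + ε) * s * τ (m + 1) ω := by
      have h6 := (tendsto_add_atTop_nat 1).eventually h4
      filter_upwards [h6] with m hm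
      obtain ⟨i, hi⟩ := hfle m _ ((good_iff h m ω).2 hg)
      refine hi.trans ?_
      have h7 : pos (hist τ X (m + 1) ω) i = X i ω := rfl
      rw [h7]
      have h8 : X i ω ∈ occupied τ X r (τ (m + 1) ω) ω :=
        ⟨i, hmonoτ (Nat.lt_succ_iff.1 i.2), by simpa using hr.le⟩
      exact (hm h8).2
    have h6 : Tendsto (fun m => u m ω) atTop (𝓝 ∞) := by
      simp only [hu]
      simp only [indicator_of_mem hg]
      refine ENNReal.tendsto_ofReal_atTop.comp (Real.tendsto_exp_atTop.comp ?_)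
      have h7 : Tendsto (fun m => (lam - θ * ((1 + ε) * s)) * τ (m + 1) ω + (-(lam * τ 1 ω)))
          atTop atTop := by
        refine tendsto_atTop_add_const_right _ _ ?_
        exact ((tendsto_add_atTop_iff_nat 1).2 h2).const_mul_atTop (by linarith)
      refine tendsto_atTop_mono' _ ?_ h7
      filter_upwards [h5] with m hm
      have h8 := mul_le_mul_of_nonneg_left hm hθ.le
      nlinarith
    rw [h6.liminf_eq]
  have hfat : ∫⁻ ω, liminf (fun m => u m ω) atTop ∂P ≤ 1 := by
    refine (lintegral_liminf_le hum).trans ?_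
    refine (liminf_le_liminf (Eventually.of_forall hum1)).trans ?_
    simp
  have h1 := (lintegral_mono_ae hlim).trans hfat
  rw [lintegral_indicator (measurableSet_goodEvent h), lintegral_const,
    Measure.restrict_apply MeasurableSet.univ, univ_inter,
    ENNReal.top_mul (goodEvent_pos h hb (rate_ne_top hrate _) h0)] at h1
  simp at h1

end Pool.Agent.Q287.BP
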