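import Mathlib
import Pool.Agent.Q287.BP.Defs

open MeasureTheory Set Filter Topology
open scoped NNReal ENNReal

namespace Pool.Agent.Q287.BP

open Classical in
/-- Short-range rate, with a much larger rate near pairs of particles at distance at most one. -/
noncomputable def b1 (x : ℝ) (η : Finset ℝ) : ℝ≥0 :=
  (if ∃ y ∈ η, |x - y| ≤ 1 then 1 else 0) +
    (if ∃ y ∈ η, ∃ z ∈ η, y ≠ z ∧ |y - z| ≤ 1 ∧ |x - z| ≤ 1 then 600000 else 0)

open Classical in
/-- Long-range rate. -/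
noncomputable def b2 (x : ℝ) (η : Finset ℝ) : ℝ≥0 := if ∃ y ∈ η, |x - y| ≤ 100 then 1 else 0

lemma measurable_near (ρ : ℝ) (n : ℕ) :
    MeasurableSet {p : ℝ × (Fin n → ℝ) | ∃ y ∈ Finset.univ.image p.2, |p.1 - y| ≤ ρ} := by
  have h1 : {p : ℝ × (Fin n → ℝ) | ∃ y ∈ Finset.univ.image p.2, |p.1 - y| ≤ ρ} =
      ⋃ i, {p : ℝ × (Fin n → ℝ) | |p.1 - p.2 i| ≤ ρ} := by
    ext p; simp
  rw [h1]
  refine MeasurableSet.iUnion fun i => ?_
  have hi : Measurable fun p : ℝ × (Fin n → ℝ) => p.2 i := by fun_prop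
  exact measurableSet_le (measurable_fst.sub hi).abs measurable_const

lemma measurable_dense (n : ℕ) :
    MeasurableSet {p : ℝ × (Fin n → ℝ) | ∃ y ∈ Finset.univ.image p.2,
      ∃ z ∈ Finset.univ.image p.2, y ≠ z ∧ |y - z| ≤ 1 ∧ |p.1 - z| ≤ 1} := by
  have h1 : {p : ℝ × (Fin n → ℝ) | ∃ y ∈ Finset.univ.image p.2,
      ∃ z ∈ Finset.univ.image p.2, y ≠ z ∧ |y - z| ≤ 1 ∧ |p.1 - z| ≤ 1} =
      ⋃ i, ⋃ j, {p : ℝ × (Fin n → ℝ) | p.2 i ≠ p.2 j ∧ |p.2 i - p.2 j| ≤ 1 ∧
        |p.1 - p.2 j| ≤ 1} := by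
    ext p; simp
  rw [h1]
  refine MeasurableSet.iUnion fun i => MeasurableSet.iUnion fun j => ?_
  have hi : Measurable fun p : ℝ × (Fin n → ℝ) => p.2 i := by fun_prop
  have hj : Measurable fun p : ℝ × (Fin n → ℝ) => p.2 j := by fun_prop
  exact (measurableSet_eq_fun hi hj).compl.inter
    ((measurableSet_le (hi.sub hj).abs measurable_const).inter
      (measurableSet_le (measurable_fst.sub hj).abs measurable_const))

lemma measurable_b1 (n : ℕ) :
    Measurable fun p : ℝ × (Fin n → ℝ) => b1 p.1 (Finset.univ.image p.2) := by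
  unfold b1
  exact (Measurable.ite (measurable_near 1 n) measurable_const measurable_const).add
    (Measurable.ite (measurable_dense n) measurable_const measurable_const)

lemma measurable_b2 (n : ℕ) :
    Measurable fun p : ℝ × (Fin n → ℝ) => b2 p.1 (Finset.univ.image p.2) := by
  unfold b2
  exact Measurable.ite (measurable_near 100 n) measurable_const measurable_const

lemma near_translate (ρ x y : ℝ) (η : Finset ℝ) :
    (∃ w ∈ η.image fun z => z + y, |x + y - w| ≤ ρ) ↔ ∃ w ∈ η, |x - w| ≤ ρ := by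
  simp only [Finset.mem_image, exists_exists_and_eq_and]
  refine exists_congr fun a => and_congr_right fun _ => ?_
  rw [show x + y - (a + y) = x - a by ring]

lemma near_reflect (ρ x : ℝ) (η : Finset ℝ) :
    (∃ w ∈ η.image fun z => -z, |-x - w| ≤ ρ) ↔ ∃ w ∈ η, |x - w| ≤ ρ := by
  simp only [Finset.mem_image, exists_exists_and_eq_and]
  refine exists_congr fun a => and_congr_right fun _ => ?_
  rw [show -x - -a = -(x - a) by ring, abs_neg]

lemma dense_translate (x y : ℝ) (η : Finset ℝ) :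
    (∃ u ∈ η.image fun z => z + y, ∃ w ∈ η.image fun z => z + y,
      u ≠ w ∧ |u - w| ≤ 1 ∧ |x + y - w| ≤ 1) ↔
    ∃ u ∈ η, ∃ w ∈ η, u ≠ w ∧ |u - w| ≤ 1 ∧ |x - w| ≤ 1 := by
  simp only [Finset.mem_image, exists_exists_and_eq_and]
  refine exists_congr fun a => and_congr_right fun _ => exists_congr fun c =>
    and_congr_right fun _ => ?_
  rw [show x + y - (c + y) = x - c by ring, show a + y - (c + y) = a - c by ring, ne_eq,
    add_left_inj]

lemma dense_reflect (x : ℝ) (η : Finset ℝ) :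
    (∃ u ∈ η.image fun z => -z, ∃ w ∈ η.image fun z => -z,
      u ≠ w ∧ |u - w| ≤ 1 ∧ |-x - w| ≤ 1) ↔
    ∃ u ∈ η, ∃ w ∈ η, u ≠ w ∧ |u - w| ≤ 1 ∧ |x - w| ≤ 1 := by
  simp only [Finset.mem_image, exists_exists_and_eq_and]
  refine exists_congr fun a => and_congr_right fun _ => exists_congr fun c =>
    and_congr_right fun _ => ?_
  rw [show -x - -c = -(x - c) by ring, abs_neg, show -a - -c = -(a - c) by ring, abs_neg, ne_eq,
    neg_inj]

lemma integrable_weight (K ρ : ℝ) :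
    Integrable fun x : ℝ => Real.exp (1 * |x|) * (Icc (-ρ) ρ).indicator (fun _ => K) x := by
  have h1 : (fun x : ℝ => Real.exp (1 * |x|) * (Icc (-ρ) ρ).indicator (fun _ => K) x) =
      (Icc (-ρ) ρ).indicator fun x => Real.exp (1 * |x|) * K := by
    funext x
    by_cases hx : x ∈ Icc (-ρ) ρ
    · rw [indicator_of_mem hx, indicator_of_mem hx]
    · rw [indicator_of_notMem hx, indicator_of_notMem hx, mul_zero]
  rw [h1, integrable_indicator_iff measurableSet_Icc]
  exact (by fun_prop : Continuous fun x : ℝ => Real.exp (1 * |x|) * K).integrableOn_Icc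

lemma le_sum_near {K ρ : ℝ} (hK : 0 ≤ K) {x : ℝ} {η : Finset ℝ} (h : ∃ y ∈ η, |x - y| ≤ ρ) :
    K ≤ ∑ y ∈ η, (Icc (-ρ) ρ).indicator (fun _ => K) (x - y) := by
  obtain ⟨y, hy, hxy⟩ := h
  have h1 := Finset.single_le_sum (f := fun y => (Icc (-ρ) ρ).indicator (fun _ => K) (x - y))
    (fun _ _ => indicator_nonneg (fun _ _ => hK) _) hy
  rwa [indicator_of_mem (show x - y ∈ Icc (-ρ) ρ from abs_le.1 hxy)] at h1

lemma sum_near_nonneg {K ρ : ℝ} (hK : 0 ≤ K) (x : ℝ) (η : Finset ℝ) :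
    0 ≤ ∑ y ∈ η, (Icc (-ρ) ρ).indicator (fun _ => K) (x - y) :=
  Finset.sum_nonneg fun _ _ => indicator_nonneg (fun _ _ => hK) _

lemma b1_le (x : ℝ) (η : Finset ℝ) :
    (b1 x η : ℝ) ≤ ∑ y ∈ η, (Icc (-1 : ℝ) 1).indicator (fun _ => 600001) (x - y) := by
  by_cases h : ∃ y ∈ η, |x - y| ≤ 1
  · refine le_trans ?_ (le_sum_near (by norm_num) h)
    unfold b1
    rw [if_pos h]
    split_ifs <;> push_cast <;> norm_num
  · have h2 : ¬ ∃ y ∈ η, ∃ z ∈ η, y ≠ z ∧ |y - z| ≤ 1 ∧ |x - z| ≤ 1 := by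
      rintro ⟨_, _, z, hz, _, _, h3⟩
      exact h ⟨z, hz, h3⟩
    unfold b1
    rw [if_neg h, if_neg h2]
    simpa using sum_near_nonneg (K := 600001) (ρ := 1) (by norm_num) x η

lemma b2_le (x : ℝ) (η : Finset ℝ) :
    (b2 x η : ℝ) ≤ ∑ y ∈ η, (Icc (-100 : ℝ) 100).indicator (fun _ => 1) (x - y) := by
  by_cases h : ∃ y ∈ η, |x - y| ≤ 100
  · refine le_trans ?_ (le_sum_near (by norm_num) h)
    unfold b2
    rw [if_pos h]
    simp
  · unfold b2
    rw [if_neg h]
    simpa using sum_near_nonneg (K := 1) (ρ := 100) (by norm_num) x η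

lemma near_mono {ρ x : ℝ} {η ζ : Finset ℝ} (h : η ⊆ ζ) (h1 : ∃ y ∈ η, |x - y| ≤ ρ) :
    ∃ y ∈ ζ, |x - y| ≤ ρ := by
  obtain ⟨y, hy, h2⟩ := h1
  exact ⟨y, h hy, h2⟩

lemma admissible_b1 : Admissible b1 where
  measurable := measurable_b1
  bound := ⟨(Icc (-1 : ℝ) 1).indicator (fun _ => 600001), 1,
    fun x => indicator_nonneg (fun _ _ => by norm_num) _, one_pos, integrable_weight _ _, b1_le⟩
  mono := by
    intro x η ζ h
    unfold b1
    refine add_le_add ?_ ?_
    · by_cases h1 : ∃ y ∈ η, |x - y| ≤ 1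
      · rw [if_pos h1, if_pos (near_mono h h1)]
      · rw [if_neg h1]; exact zero_le
    · by_cases h1 : ∃ y ∈ η, ∃ z ∈ η, y ≠ z ∧ |y - z| ≤ 1 ∧ |x - z| ≤ 1
      · rw [if_pos h1, if_pos]
        obtain ⟨y, hy, z, hz, h2⟩ := h1
        exact ⟨y, h hy, z, h hz, h2⟩
      · rw [if_neg h1]; exact zero_le
  translate := by
    intro x y η
    unfold b1
    simp only [near_translate, dense_translate]
  reflect := by
    intro x η
    unfold b1
    simp only [near_reflect, dense_reflect]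
  pos := by
    refine ⟨1, 1, one_pos, one_pos, fun x η h => ?_⟩
    unfold b1
    rw [if_pos h]
    push_cast
    have : (0 : ℝ) ≤ ((if ∃ y ∈ η, ∃ z ∈ η, y ≠ z ∧ |y - z| ≤ 1 ∧ |x - z| ≤ 1 then 600000 else 0 :
      ℝ≥0) : ℝ) := NNReal.coe_nonneg _
    linarith

lemma admissible_b2 : Admissible b2 where
  measurable := measurable_b2
  bound := ⟨(Icc (-100 : ℝ) 100).indicator (fun _ => 1), 1,
    fun x => indicator_nonneg (fun _ _ => by norm_num) _, one_pos, integrable_weight _ _, b2_le⟩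
  mono := by
    intro x η ζ h
    unfold b2
    by_cases h1 : ∃ y ∈ η, |x - y| ≤ 100
    · rw [if_pos h1, if_pos (near_mono h h1)]
    · rw [if_neg h1]; exact zero_le
  translate := by
    intro x y η
    unfold b2
    simp only [near_translate]
  reflect := by
    intro x η
    unfold b2
    simp only [near_reflect]
  pos := by
    refine ⟨1, 100, one_pos, by norm_num, fun x η h => ?_⟩
    unfold b2
    rw [if_pos h]
    simp

lemma lintegral_near (K ρ : ℝ) (hK : 0 ≤ K) (y : ℝ) :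
    ∫⁻ x, ENNReal.ofReal ((Icc (-ρ) ρ).indicator (fun _ => K) (x - y)) =
      ENNReal.ofReal (K * (2 * ρ)) := by
  have h1 : ∀ x, ENNReal.ofReal ((Icc (-ρ) ρ).indicator (fun _ => K) (x - y)) =
      (Icc (y - ρ) (y + ρ)).indicator (fun _ => ENNReal.ofReal K) x := by
    intro x
    by_cases hx : x ∈ Icc (y - ρ) (y + ρ)
    · rw [indicator_of_mem hx, indicator_of_mem]
      exact ⟨by linarith [hx.1], by linarith [hx.2]⟩
    · rw [indicator_of_notMem hx, indicator_of_notMem]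
      · simp
      · intro hc
        exact hx ⟨by linarith [hc.1], by linarith [hc.2]⟩
  simp only [h1]
  rw [lintegral_indicator measurableSet_Icc, lintegral_const,
    Measure.restrict_apply MeasurableSet.univ, univ_inter, Real.volume_Icc,
    ← ENNReal.ofReal_mul hK]
  congr 2
  ring

lemma totalRate_le {b : ℝ → Finset ℝ → ℝ≥0} {K ρ : ℝ} (hK : 0 ≤ K) (hρ : 0 ≤ ρ)
    (h : ∀ x η, (b x η : ℝ) ≤ ∑ y ∈ η, (Icc (-ρ) ρ).indicator (fun _ => K) (x - y))
    (η : Finset ℝ) : totalRate b η ≤ ENNReal.ofReal (K * (2 * ρ) * η.card) := by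
  unfold totalRate
  calc ∫⁻ x, (b x η : ℝ≥0∞)
      ≤ ∫⁻ x, ∑ y ∈ η, ENNReal.ofReal ((Icc (-ρ) ρ).indicator (fun _ => K) (x - y)) := by
        refine lintegral_mono fun x => ?_
        rw [← ENNReal.ofReal_sum_of_nonneg fun y _ => indicator_nonneg (fun _ _ => hK) _]
        have := ENNReal.ofReal_le_ofReal (h x η)
        simpa using this
    _ = ∑ y ∈ η, ∫⁻ x, ENNReal.ofReal ((Icc (-ρ) ρ).indicator (fun _ => K) (x - y)) := by
        rw [lintegral_finsetSum]
        intro y _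
        exact ((measurable_const.indicator measurableSet_Icc).comp
          (measurable_id.sub_const y)).ennreal_ofReal
    _ = ENNReal.ofReal (K * (2 * ρ) * η.card) := by
        simp only [lintegral_near K ρ hK]
        rw [Finset.sum_const, nsmul_eq_mul, mul_comm,
          ENNReal.ofReal_mul (p := K * (2 * ρ)) (q := (η.card : ℝ)) (by positivity),
          ENNReal.ofReal_natCast]

end Pool.Agent.Q287.BP
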