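import Mathlib
import Pool.Agent.Q287.BP.Lower3
import Pool.Agent.Q287.BP.Front
import Pool.Agent.Q287.BP.Rates

open MeasureTheory Set Filter Topology
open scoped NNReal ENNReal

namespace Pool.Agent.Q287.BP

lemma Bf_le_some {m : ℕ} {v : Fin (m + 2) → ℝ} (hv : Good v) : ∃ i, Bf v ≤ v i := by
  obtain ⟨⟨i, hi⟩, _⟩ := hv.seed
  exact ⟨i, hi.ge⟩

lemma b1_eq {m : ℕ} {v : Fin (m + 2) → ℝ} (hv : Good v) {x : ℝ} (h1 : Bf v < x)
    (h2 : x ≤ Bf v + 1) : b1 x (Finset.univ.image v) = 600001 := by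
  obtain ⟨⟨i, hi⟩, y, ⟨j, rfl⟩, h3, h4⟩ := hv.seed
  have h5 : |x - v i| ≤ 1 := by
    rw [hi]
    exact abs_le.2 ⟨by linarith, by linarith⟩
  unfold b1
  rw [if_pos, if_pos]
  · norm_num
  · refine ⟨v j, by simp, v i, by simp, ?_, ?_, h5⟩
    · rw [hi]; exact h4.ne
    · rw [hi]
      exact abs_le.2 ⟨by linarith, by linarith⟩
  · exact ⟨v i, by simp, h5⟩

theorem speed_b1 {s : ℝ} (hs : IsSpeed b1 s) : 299900 ≤ s := by
  have h := speed_ge (b := b1) measurable_b1 (C := 600001 * (2 * 1)) (by norm_num)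
    (totalRate_le (by norm_num) (by norm_num) b1_le)
    (fun x hx => by
      unfold b1
      rw [if_pos ⟨0, by simp, by simpa using hx⟩]
      exact le_self_add)
    (f := fun m => Bf) (fun m => measurable_Bf) (fun m v hv => Bf_le_some hv)
    (fun v hv => hv.front.nonneg) (θ := 1 / 1000) (κ := 600001) (ℓ := 1) (by norm_num)
    (by norm_num) (by norm_num) (by norm_num)
    (fun m v x hv => front_mono hv.front (hv.front_snoc x))
    (fun m v x hv h1 h2 => ⟨front_near_ge hv.seed (hv.front_snoc x) h1 h2, by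
      rw [b1_eq hv h1 h2]
      norm_num⟩) hs
  refine le_trans ?_ h
  norm_num

lemma Ff_le_some {m : ℕ} (v : Fin (m + 2) → ℝ) : ∃ i, Ff v ≤ v i := by
  obtain ⟨i, _, hi⟩ := Finset.exists_mem_eq_sup' (s := Finset.univ) Finset.univ_nonempty v
  exact ⟨i, hi.le⟩

lemma le_Ff {m : ℕ} (v : Fin (m + 2) → ℝ) (i : Fin (m + 2)) : v i ≤ Ff v :=
  Finset.le_sup' v (Finset.mem_univ i)

theorem speed_b2 {s : ℝ} (hs : IsSpeed b2 s) : 4833 ≤ s := by
  have h := speed_ge (b := b2) measurable_b2 (C := 1 * (2 * 100)) (by norm_num)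
    (totalRate_le (by norm_num) (by norm_num) b2_le)
    (fun x hx => by
      unfold b2
      rw [if_pos ⟨0, by simp, by simpa using hx.trans (by norm_num)⟩])
    (f := fun m => Ff) (fun m => measurable_Ff) (fun m v _ => Ff_le_some v)
    (fun v hv => by rw [← hv.1]; exact le_Ff v 0) (θ := 1 / 1000) (κ := 1) (ℓ := 100) (by norm_num)
    (by norm_num) (by norm_num) (by norm_num)
    (fun m v x _ => by
      obtain ⟨i, hi⟩ := Ff_le_some v
      refine hi.trans ?_
      have := le_Ff (Fin.snoc v x : Fin (m + 1 + 2) → ℝ) i.castSucc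
      rwa [Fin.snoc_castSucc] at this)
    (fun m v x _ h1 h2 => by
      refine ⟨?_, ?_⟩
      · have := le_Ff (Fin.snoc v x : Fin (m + 1 + 2) → ℝ) (Fin.last _)
        rwa [Fin.snoc_last] at this
      · obtain ⟨i, hi⟩ := Ff_le_some v
        have h3 := le_Ff v i
        unfold b2
        rw [if_pos ⟨v i, by simp, abs_le.2 ⟨by linarith, by linarith⟩⟩]
        norm_num) hs
  refine le_trans ?_ h
  norm_num

end Pool.Agent.Q287.BP
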