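import Mathlib
import Pool.Agent.Q287.BP.Lower4

open MeasureTheory Set Filter Topology
open scoped NNReal ENNReal

namespace Pool.Agent.Q287.BP

/-- weight of an isolated particle at distance `u` above the front -/
noncomputable def g (u : ℝ) : ℝ := 2 * min u 2 + Real.exp (u / 100)

lemma g_mono {u w : ℝ} (h : u ≤ w) : g u ≤ g w := by
  unfold g
  have h1 : min u 2 ≤ min w 2 := min_le_min_right _ h
  have h2 : Real.exp (u / 100) ≤ Real.exp (w / 100) := Real.exp_le_exp.2 (by linarith)
  linarith

lemma g_nonneg {u : ℝ} (h : 0 ≤ u) : 0 ≤ g u := by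
  unfold g
  have h1 : 0 ≤ min u 2 := le_min h (by norm_num)
  positivity

lemma g_le (u : ℝ) : g u ≤ 4 + Real.exp (u / 100) := by
  unfold g
  have h1 : min u 2 ≤ 2 := min_le_right _ _
  linarith

/-- one step of the front decreases the weight -/
lemma g_step {u s : ℝ} (hs0 : 0 ≤ s) (hs1 : s ≤ 1) :
    (if u ≤ s + 1 then (1 : ℝ) else 0) + g (u - s) ≤
      g u + ((if u ≤ 2 then (1 - 2 * s : ℝ) else 0) - 199 / 20000 * s * Real.exp (u / 100)) := by
  have h1 : Real.exp ((u - s) / 100) ≤ Real.exp (u / 100) * (1 - 199 / 20000 * s) := by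
    have h2 : (u - s) / 100 = u / 100 + -(s / 100) := by ring
    rw [h2, Real.exp_add]
    refine mul_le_mul_of_nonneg_left ?_ (Real.exp_pos _).le
    have h3 := one_sub_exp_neg_ge (y := s / 100) (by positivity)
    nlinarith
  unfold g
  by_cases h2 : u ≤ 2
  · rw [if_pos h2, min_eq_left h2, min_eq_left (by linarith)]
    split_ifs <;> linarith
  · have h3 : ¬ u ≤ s + 1 := by push Not at h2 ⊢; linarith
    rw [if_neg h2, if_neg h3, min_eq_right (not_le.1 h2).le]
    have h4 : min (u - s) 2 ≤ 2 := min_le_right _ _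
    linarith

noncomputable def Psi {m : ℕ} (v : Fin m → ℝ) (B t : ℝ) : ℝ :=
  ∑ i, if B < v i then g (v i - t) else 0

/-- The Lyapunov function. -/
noncomputable def Wf {m : ℕ} (v : Fin (m + 2) → ℝ) : ℝ := Bf v + Psi v (Bf v) (Bf v)

lemma Psi_nonneg {m : ℕ} (v : Fin m → ℝ) (B : ℝ) : 0 ≤ Psi v B B := by
  refine Finset.sum_nonneg fun i _ => ?_
  split_ifs with h
  · exact g_nonneg (by linarith)
  · exact le_rfl

lemma Psi_snoc {m : ℕ} (v : Fin m → ℝ) (x B t : ℝ) :
    Psi (Fin.snoc v x : Fin (m + 1) → ℝ) B t = Psi v B t + if B < x then g (x - t) else 0 := by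
  unfold Psi
  rw [Fin.sum_univ_castSucc]
  simp only [Fin.snoc_castSucc, Fin.snoc_last]

lemma Wf_nonneg {m : ℕ} {v : Fin (m + 2) → ℝ} (hv : Good v) : 0 ≤ Wf v :=
  add_nonneg hv.front.nonneg (Psi_nonneg _ _)

/-- increasing the front decreases the sum -/
lemma Psi_anti {m : ℕ} (v : Fin m → ℝ) {B B' t : ℝ} (h1 : B ≤ B') (h2 : t ≤ B')
    (h3 : ∀ i, B < v i → t ≤ v i) : Psi v B' B' ≤ Psi v B t := by
  unfold Psi
  refine Finset.sum_le_sum fun i _ => ?_
  by_cases h4 : B' < v i
  · rw [if_pos h4, if_pos (h1.trans_lt h4)]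
    exact g_mono (by linarith)
  · rw [if_neg h4]
    split_ifs with h5
    · exact g_nonneg (by linarith [h3 i h5])
    · exact le_rfl

/-- the sum of the two rates -/
noncomputable def b12 (x : ℝ) (η : Finset ℝ) : ℝ≥0 := b1 x η + b2 x η

/-- bound for the drift density -/
noncomputable def ebd {m : ℕ} (v : Fin (m + 2) → ℝ) (x : ℝ) : ℝ :=
  (Ioc (Bf v) (Bf v + 1)).indicator (fun x => 600002 * ((x - Bf v) +
    ∑ i, if Bf v < v i then ((if v i - Bf v ≤ 2 then (1 - 2 * (x - Bf v)) else 0) -
      199 / 20000 * (x - Bf v) * Real.exp ((v i - Bf v) / 100)) else 0)) x +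
  (∑ i, if Bf v < v i then
    (Icc (v i - 1) (v i + 1)).indicator (fun x => 2 * (x + 1 - Bf v)) x else 0) +
  (Ioc (Bf v + 1) (Ff v + 100)).indicator (fun x => 4 + Real.exp ((x - Bf v) / 100)) x

lemma b12_near {m : ℕ} {v : Fin (m + 2) → ℝ} (hv : Good v) {x : ℝ} (h1 : Bf v < x)
    (h2 : x ≤ Bf v + 1) : b12 x (Finset.univ.image v) = 600002 := by
  obtain ⟨⟨i, hi⟩, _⟩ := hv.seed
  unfold b12
  rw [b1_eq hv h1 h2]
  unfold b2
  rw [if_pos]
  · norm_num
  · refine ⟨v i, by simp, ?_⟩
    rw [hi]
    exact abs_le.2 ⟨by linarith, by linarith⟩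

lemma not_dense {m : ℕ} {v : Fin (m + 2) → ℝ} (hv : Good v) {x : ℝ} (h1 : Bf v + 1 < x) :
    ¬ ∃ y ∈ Finset.univ.image v, ∃ z ∈ Finset.univ.image v, y ≠ z ∧ |y - z| ≤ 1 ∧ |x - z| ≤ 1 := by
  rintro ⟨y, hy, z, hz, hne, h2, h3⟩
  have hy' : y ∈ range v := by simpa using hy
  have hz' : z ∈ range v := by simpa using hz
  have hzB : Bf v < z := by linarith [(abs_le.1 h3).2]
  have hzB' := lt_of_above hv.front hv.seed hz' hzB
  have hyB : Bf v < y := by linarith [(abs_le.1 h2).1]
  rcases lt_or_gt_of_ne hne with h4 | h4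
  · have := hv.front.le z ⟨hz', y, hy', by linarith [(abs_le.1 h2).1], h4⟩
    linarith
  · have := hv.front.le y ⟨hy', z, hz', by linarith [(abs_le.1 h2).2], h4⟩
    linarith

lemma b12_le_two {m : ℕ} {v : Fin (m + 2) → ℝ} (hv : Good v) {x : ℝ} (h1 : Bf v + 1 < x) :
    (b12 x (Finset.univ.image v) : ℝ) ≤ 2 := by
  unfold b12 b1 b2
  rw [if_neg (not_dense hv h1)]
  push_cast
  split_ifs <;> norm_num

lemma pointwise {m : ℕ} {v : Fin (m + 2) → ℝ} (hv : Good v) {x : ℝ} (hx : x ∉ range v) :
    (b12 x (Finset.univ.image v) : ℝ) * Wf (Fin.snoc v x : Fin (m + 1 + 2) → ℝ) ≤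
      (b12 x (Finset.univ.image v) : ℝ) * Wf v + ebd v x := by
  set B := Bf v with hB
  set B' := Bf (Fin.snoc v x : Fin (m + 1 + 2) → ℝ) with hB'
  have hf := hv.front
  have hs := hv.seed
  have hf' := hv.front_snoc x
  rw [← hB] at hf hs
  rw [← hB'] at hf'
  have habove : ∀ i, B < v i → B + 1 < v i := fun i hi =>
    lt_of_above hf hs (mem_range_self i) hi
  have hW : Wf v = B + Psi v B B := rfl
  have hW' : Wf (Fin.snoc v x : Fin (m + 1 + 2) → ℝ) =
      B' + (Psi v B' B' + if B' < x then g (x - B') else 0) := by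
    unfold Wf
    rw [Psi_snoc (m := m + 2) v x]
  have hb0 : 0 ≤ (b12 x (Finset.univ.image v) : ℝ) := NNReal.coe_nonneg _
  -- the two last terms are nonnegative
  have hT2 : 0 ≤ ∑ i, if B < v i then
      (Icc (v i - 1) (v i + 1)).indicator (fun x => 2 * (x + 1 - B)) x else 0 := by
    refine Finset.sum_nonneg fun i _ => ?_
    split_ifs with h1
    · refine indicator_apply_nonneg ?_
      intro hxi
      have := habove i h1
      have := hxi.1
      show 0 ≤ 2 * (x + 1 - B)
      linarith
    · exact le_rfl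
  have hT3 : 0 ≤ (Ioc (B + 1) (Ff v + 100)).indicator
      (fun x => 4 + Real.exp ((x - B) / 100)) x :=
    indicator_nonneg (fun _ _ => by positivity) _
  unfold ebd
  rw [← hB]
  rcases le_or_gt x B with h1 | h1
  · -- below the front
    have h2 : B' = B := front_below hf hs hf' h1
    rw [hW', hW, h2, if_neg (not_lt.2 h1), add_zero]
    have h3 : x ∉ Ioc B (B + 1) := fun h => absurd h.1 (not_lt.2 h1)
    rw [indicator_of_notMem h3]
    linarith
  rcases le_or_gt x (B + 1) with h2 | h2
  · -- just above the front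
    rw [b12_near hv h1 h2, indicator_of_mem (show x ∈ Ioc B (B + 1) from ⟨h1, h2⟩)]
    have h3 : x ≤ B' := front_near_ge hs hf' h1 h2
    rw [hW', if_neg (not_lt.2 h3), add_zero, hW]
    have h4 : B' ≤ x + ∑ i, if B < v i then (if v i - B ≤ (x - B) + 1 then (1 : ℝ) else 0) else 0 := by
      have hnn : ∀ i ∈ (Finset.univ : Finset (Fin (m + 2))),
          (0 : ℝ) ≤ if B < v i then (if v i - B ≤ (x - B) + 1 then (1 : ℝ) else 0) else 0 := by
        intro i _
        split_ifs <;> norm_num
      rcases front_le_of_gt hf hf' h1 with h5 | ⟨w, ⟨k, rfl⟩, h6, h7, h8⟩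
      · linarith [Finset.sum_nonneg hnn]
      · have h9 := Finset.single_le_sum hnn (Finset.mem_univ k)
        rw [if_pos (h1.trans h6), if_pos (by linarith)] at h9
        linarith
    have h5 : Psi v B' B' ≤ Psi v B x :=
      Psi_anti v (h1.le.trans h3) h3 (fun i hi => h2.trans (habove i hi).le)
    have h6 : (∑ i, if B < v i then (if v i - B ≤ (x - B) + 1 then (1 : ℝ) else 0) else 0) +
        Psi v B x ≤ Psi v B B +
        ∑ i, if B < v i then ((if v i - B ≤ 2 then (1 - 2 * (x - B)) else 0) -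
          199 / 20000 * (x - B) * Real.exp ((v i - B) / 100)) else 0 := by
      unfold Psi
      rw [← Finset.sum_add_distrib, ← Finset.sum_add_distrib]
      refine Finset.sum_le_sum fun i _ => ?_
      by_cases h7 : B < v i
      · simp only [if_pos h7]
        have h8 := g_step (u := v i - B) (s := x - B) (by linarith) (by linarith)
        rw [show v i - B - (x - B) = v i - x by ring] at h8
        exact h8
      · simp only [if_neg h7]
        norm_num
    push_cast
    have h7 : B' + Psi v B' B' ≤ B + Psi v B B + ((x - B) +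
        ∑ i, if B < v i then ((if v i - B ≤ 2 then (1 - 2 * (x - B)) else 0) -
          199 / 20000 * (x - B) * Real.exp ((v i - B) / 100)) else 0) := by linarith
    have h8 := mul_le_mul_of_nonneg_left h7 (show (0 : ℝ) ≤ 600002 by norm_num)
    linarith
  · have h3 : x ∉ Ioc B (B + 1) := fun h => absurd h.2 (not_le.2 h2)
    rw [indicator_of_notMem h3]
    by_cases h4 : ∃ i, B < v i ∧ |x - v i| ≤ 1
    · -- near an isolated particle
      obtain ⟨k, h5, h6⟩ := h4
      have hne : v k ≠ x := fun h => hx ⟨k, h⟩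
      have h7 : x ≤ B' := front_pair_ge hf' (mem_range_self k) hne h6
      have h8 : B' ≤ x + 1 := by
        rcases front_le_of_gt hf hf' h1 with h9 | ⟨w, _, _, h10, h11⟩ <;> linarith
      have h9 : Psi v B' B' ≤ Psi v B B :=
        Psi_anti v (h1.le.trans h7) (h1.le.trans h7) (fun i hi => hi.le)
      rw [hW', if_neg (not_lt.2 h7), add_zero, hW]
      have h10 : 2 * (x + 1 - B) ≤ ∑ i, if B < v i then
          (Icc (v i - 1) (v i + 1)).indicator (fun x => 2 * (x + 1 - B)) x else 0 := by
        have hnn : ∀ i ∈ (Finset.univ : Finset (Fin (m + 2))), (0 : ℝ) ≤ if B < v i then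
            (Icc (v i - 1) (v i + 1)).indicator (fun x => 2 * (x + 1 - B)) x else 0 := by
          intro i _
          split_ifs with h1
          · refine indicator_apply_nonneg ?_
            intro hxi
            show 0 ≤ 2 * (x + 1 - B)
            linarith
          · exact le_rfl
        have h11 := Finset.single_le_sum hnn (Finset.mem_univ k)
        rw [if_pos h5, indicator_of_mem] at h11
        · exact h11
        · exact ⟨by linarith [(abs_le.1 h6).1], by linarith [(abs_le.1 h6).2]⟩
      have h11 := b12_le_two hv (x := x) h2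
      have h12 : (b12 x (Finset.univ.image v) : ℝ) * (B' + Psi v B' B') ≤
          (b12 x (Finset.univ.image v) : ℝ) * (B + Psi v B B + (x + 1 - B)) :=
        mul_le_mul_of_nonneg_left (by linarith) hb0
      have h13 : (b12 x (Finset.univ.image v) : ℝ) * (x + 1 - B) ≤ 2 * (x + 1 - B) :=
        mul_le_mul_of_nonneg_right h11 (by linarith)
      nlinarith
    · -- a new isolated particle
      push Not at h4
      have h5 : ∀ w ∈ range v, 1 < |x - w| := by
        rintro w ⟨i, rfl⟩
        by_cases h6 : B < v i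
        · exact h4 i h6
        · push Not at h6
          rw [abs_of_nonneg (by linarith)]
          linarith
      have h6 : B' = B := front_isolated hf hf' h5
      rw [hW', h6, if_pos h1, hW]
      have h7 : ¬ ∃ y ∈ Finset.univ.image v, |x - y| ≤ 1 := by
        rintro ⟨y, hy, h8⟩
        have := h5 y (by simpa using hy)
        linarith
      by_cases h8 : ∃ y ∈ Finset.univ.image v, |x - y| ≤ 100
      · have h9 : (b12 x (Finset.univ.image v) : ℝ) = 1 := by
          unfold b12 b1 b2
          rw [if_neg (not_dense hv h2), if_neg h7, if_pos h8]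
          norm_num
        rw [h9]
        obtain ⟨y, hy, h10⟩ := h8
        have hy' : y ∈ range v := by simpa using hy
        obtain ⟨k, rfl⟩ := hy'
        have h11 := le_Ff v k
        have h12 : x ∈ Ioc (B + 1) (Ff v + 100) := ⟨h2, by linarith [(abs_le.1 h10).2]⟩
        rw [indicator_of_mem h12]
        have h13 := g_le (x - B)
        linarith
      · have h9 : (b12 x (Finset.univ.image v) : ℝ) = 0 := by
          unfold b12 b1 b2
          rw [if_neg (not_dense hv h2), if_neg h7, if_neg h8]
          norm_num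
        rw [h9]
        linarith

end Pool.Agent.Q287.BP
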