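import Mathlib
import Pool.Agent.Q287.BP.Upper

open MeasureTheory Set Filter Topology
open scoped NNReal ENNReal

namespace Pool.Agent.Q287.BP

lemma int_affine (B a c : ℝ) :
    IntegrableOn (fun x : ℝ => a * (x - B) + c) (Ioc B (B + 1)) ∧
      ∫ x in Ioc B (B + 1), (a * (x - B) + c) = a / 2 + c := by
  refine ⟨(by fun_prop : Continuous fun x : ℝ => a * (x - B) + c).integrableOn_Ioc, ?_⟩
  rw [← intervalIntegral.integral_of_le (by linarith)]
  have h1 : ∫ x in B..(B + 1), (a * (x - B) + c) = ∫ x in (B - B)..(B + 1 - B), (a * x + c) :=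
    intervalIntegral.integral_comp_sub_right (fun x => a * x + c) B
  rw [h1, intervalIntegral.integral_add, intervalIntegral.integral_const_mul, integral_id]
  · simp
    ring
  · exact (by fun_prop : Continuous fun x : ℝ => a * x).intervalIntegrable _ _
  · exact intervalIntegrable_const

lemma int_window (B w : ℝ) :
    IntegrableOn (fun x : ℝ => 2 * (x + 1 - B)) (Icc (w - 1) (w + 1)) ∧
      ∫ x in Icc (w - 1) (w + 1), 2 * (x + 1 - B) = 4 * (w - B + 1) := by
  refine ⟨(by fun_prop : Continuous fun x : ℝ => 2 * (x + 1 - B)).integrableOn_Icc, ?_⟩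
  rw [integral_Icc_eq_integral_Ioc, ← intervalIntegral.integral_of_le (by linarith)]
  have h2 : ∀ x : ℝ, HasDerivAt (fun x : ℝ => (x + 1 - B) ^ 2) (2 * (x + 1 - B)) x := by
    intro x
    have h3 : HasDerivAt (fun x : ℝ => x + 1 - B) 1 x :=
      ((hasDerivAt_id x).add_const 1).sub_const B
    refine (h3.pow 2).congr_deriv ?_
    simp
  rw [intervalIntegral.integral_eq_sub_of_hasDerivAt (fun x _ => h2 x)
    ((by fun_prop : Continuous fun x : ℝ => 2 * (x + 1 - B)).intervalIntegrable _ _)]
  ring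

lemma int_far (B F : ℝ) (hBF : B ≤ F) :
    IntegrableOn (fun x : ℝ => 4 + Real.exp ((x - B) / 100)) (Ioc (B + 1) (F + 100)) ∧
      ∫ x in Ioc (B + 1) (F + 100), (4 + Real.exp ((x - B) / 100)) ≤
        672 * Real.exp ((F - B) / 100) := by
  have hc : Continuous fun x : ℝ => 4 + Real.exp ((x - B) / 100) := by fun_prop
  refine ⟨hc.integrableOn_Ioc, ?_⟩
  rw [← intervalIntegral.integral_of_le (by linarith)]
  have h2 : ∀ x : ℝ, HasDerivAt (fun x : ℝ => 4 * x + 100 * Real.exp ((x - B) / 100))
      (4 + Real.exp ((x - B) / 100)) x := by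
    intro x
    have h3 : HasDerivAt (fun x : ℝ => (x - B) / 100) (1 / 100) x :=
      ((hasDerivAt_id x).sub_const B).div_const 100
    have h4 := ((hasDerivAt_id x).const_mul 4).add (h3.exp.const_mul 100)
    refine h4.congr_deriv ?_
    simp
    ring
  rw [intervalIntegral.integral_eq_sub_of_hasDerivAt (fun x _ => h2 x)
    (hc.intervalIntegrable _ _)]
  have h5 : Real.exp ((F + 100 - B) / 100) = Real.exp 1 * Real.exp ((F - B) / 100) := by
    rw [← Real.exp_add]
    congr 1
    ring
  rw [h5]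
  have h6 := Real.exp_one_lt_d9
  have h7 := Real.add_one_le_exp ((F - B) / 100)
  have h8 : 0 < Real.exp ((B + 1 - B) / 100) := Real.exp_pos _
  have h9 : 0 < Real.exp ((F - B) / 100) := Real.exp_pos _
  have h10 : Real.exp 1 * Real.exp ((F - B) / 100) ≤ 2.72 * Real.exp ((F - B) / 100) :=
    mul_le_mul_of_nonneg_right (by linarith) h9.le
  linarith

section
variable {m : ℕ} (v : Fin (m + 2) → ℝ)

/-- number of isolated particles close to the front -/
noncomputable def Cn : ℝ := ∑ i, if Bf v < v i then (if v i - Bf v ≤ 2 then (1 : ℝ) else 0) else 0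

/-- sum of exponentials -/
noncomputable def Kn : ℝ := ∑ i, if Bf v < v i then Real.exp ((v i - Bf v) / 100) else 0

lemma sum_eq (x : ℝ) :
    (∑ i, if Bf v < v i then ((if v i - Bf v ≤ 2 then (1 - 2 * (x - Bf v)) else 0) -
      199 / 20000 * (x - Bf v) * Real.exp ((v i - Bf v) / 100)) else 0) =
    Cn v * (1 - 2 * (x - Bf v)) - 199 / 20000 * (x - Bf v) * Kn v := by
  unfold Cn Kn
  rw [Finset.sum_mul, Finset.mul_sum, ← Finset.sum_sub_distrib]
  refine Finset.sum_congr rfl fun i _ => ?_
  split_ifs <;> ring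

lemma int_first :
    Integrable ((Ioc (Bf v) (Bf v + 1)).indicator (fun x => 600002 * ((x - Bf v) +
      ∑ i, if Bf v < v i then ((if v i - Bf v ≤ 2 then (1 - 2 * (x - Bf v)) else 0) -
        199 / 20000 * (x - Bf v) * Real.exp ((v i - Bf v) / 100)) else 0))) ∧
    ∫ x, (Ioc (Bf v) (Bf v + 1)).indicator (fun x => 600002 * ((x - Bf v) +
      ∑ i, if Bf v < v i then ((if v i - Bf v ≤ 2 then (1 - 2 * (x - Bf v)) else 0) -
        199 / 20000 * (x - Bf v) * Real.exp ((v i - Bf v) / 100)) else 0)) x =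
      300001 - 300001 * (199 / 20000) * Kn v := by
  have h1 : ∀ x, 600002 * ((x - Bf v) +
      ∑ i, if Bf v < v i then ((if v i - Bf v ≤ 2 then (1 - 2 * (x - Bf v)) else 0) -
        199 / 20000 * (x - Bf v) * Real.exp ((v i - Bf v) / 100)) else 0) =
      (600002 * (1 - 2 * Cn v - 199 / 20000 * Kn v)) * (x - Bf v) + 600002 * Cn v := by
    intro x
    rw [sum_eq]
    ring
  simp only [h1]
  obtain ⟨h2, h3⟩ := int_affine (Bf v) (600002 * (1 - 2 * Cn v - 199 / 20000 * Kn v))
    (600002 * Cn v)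
  refine ⟨(integrable_indicator_iff measurableSet_Ioc).2 h2, ?_⟩
  rw [integral_indicator measurableSet_Ioc, h3]
  ring

lemma int_second :
    Integrable (fun x => ∑ i, if Bf v < v i then
      (Icc (v i - 1) (v i + 1)).indicator (fun x => 2 * (x + 1 - Bf v)) x else 0) ∧
    ∫ x, (∑ i, if Bf v < v i then
      (Icc (v i - 1) (v i + 1)).indicator (fun x => 2 * (x + 1 - Bf v)) x else 0) =
      ∑ i, if Bf v < v i then 4 * (v i - Bf v + 1) else 0 := by
  have h1 : ∀ i : Fin (m + 2), Integrable fun x => if Bf v < v i then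
      (Icc (v i - 1) (v i + 1)).indicator (fun x => 2 * (x + 1 - Bf v)) x else 0 := by
    intro i
    by_cases h : Bf v < v i
    · simp only [if_pos h]
      exact (integrable_indicator_iff measurableSet_Icc).2 (int_window (Bf v) (v i)).1
    · simp only [if_neg h]
      exact integrable_zero _ _ _
  refine ⟨integrable_finsetSum _ fun i _ => h1 i, ?_⟩
  rw [integral_finsetSum _ fun i _ => h1 i]
  refine Finset.sum_congr rfl fun i _ => ?_
  by_cases h : Bf v < v i
  · simp only [if_pos h]
    rw [integral_indicator measurableSet_Icc, (int_window (Bf v) (v i)).2]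
  · simp only [if_neg h, integral_zero]

end

lemma Bf_le_Ff {m : ℕ} {v : Fin (m + 2) → ℝ} (hv : Good v) : Bf v ≤ Ff v := by
  obtain ⟨i, hi⟩ := Bf_le_some hv
  exact hi.trans (le_Ff v i)

lemma exp_far_le {m : ℕ} {v : Fin (m + 2) → ℝ} (hv : Good v) :
    Real.exp ((Ff v - Bf v) / 100) ≤ 1 + Kn v := by
  have hnn : ∀ i ∈ (Finset.univ : Finset (Fin (m + 2))),
      (0 : ℝ) ≤ if Bf v < v i then Real.exp ((v i - Bf v) / 100) else 0 := by
    intro i _
    split_ifs <;> positivity
  rcases (Bf_le_Ff hv).eq_or_lt with h | h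
  · rw [← h]
    have := Finset.sum_nonneg hnn
    unfold Kn
    simp only [sub_self, zero_div, Real.exp_zero]
    linarith
  · obtain ⟨k, hk⟩ := Ff_le_some v
    have h1 : Ff v = v k := le_antisymm hk (le_Ff v k)
    have h2 := Finset.single_le_sum hnn (Finset.mem_univ k)
    rw [← h1, if_pos h] at h2
    unfold Kn
    linarith

lemma integrable_ebd {m : ℕ} {v : Fin (m + 2) → ℝ} (hv : Good v) : Integrable (ebd v) := by
  unfold ebd
  exact ((int_first v).1.add (int_second v).1).add
    ((integrable_indicator_iff measurableSet_Ioc).2 (int_far (Bf v) (Ff v) (Bf_le_Ff hv)).1)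

lemma integral_three {f1 f2 f3 : ℝ → ℝ} (h1 : Integrable f1) (h2 : Integrable f2)
    (h3 : Integrable f3) :
    ∫ x, (f1 x + f2 x + f3 x) = (∫ x, f1 x) + (∫ x, f2 x) + ∫ x, f3 x := by
  have h12 : Integrable fun x => f1 x + f2 x := h1.add h2
  rw [integral_add h12 h3, integral_add h1 h2]

lemma integral_ebd {m : ℕ} {v : Fin (m + 2) → ℝ} (hv : Good v) : ∫ x, ebd v x ≤ 300673 := by
  unfold ebd
  have h3 := int_far (Bf v) (Ff v) (Bf_le_Ff hv)
  rw [integral_three (int_first v).1 (int_second v).1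
    ((integrable_indicator_iff measurableSet_Ioc).2 h3.1), (int_first v).2, (int_second v).2,
    integral_indicator measurableSet_Ioc]
  have h4 := exp_far_le hv
  have h5 : (∑ i, if Bf v < v i then 4 * (v i - Bf v + 1) else 0) ≤ 404 * Kn v := by
    unfold Kn
    rw [Finset.mul_sum]
    refine Finset.sum_le_sum fun i _ => ?_
    split_ifs with h
    · have := Real.add_one_le_exp ((v i - Bf v) / 100)
      linarith
    · norm_num
  have hK : 0 ≤ Kn v := by
    unfold Kn
    refine Finset.sum_nonneg fun i _ => ?_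
    split_ifs <;> positivity
  have h6 := h3.2
  linarith

end Pool.Agent.Q287.BP
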