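import Mathlib
import Pool.Agent.Q287.BP.Upper2

open MeasureTheory Set Filter Topology
open scoped NNReal ENNReal

namespace Pool.Agent.Q287.BP

lemma measurable_b12 (n : ℕ) :
    Measurable fun p : ℝ × (Fin n → ℝ) => b12 p.1 (Finset.univ.image p.2) :=
  (measurable_b1 n).add (measurable_b2 n)

lemma b12_le (x : ℝ) (η : Finset ℝ) :
    (b12 x η : ℝ) ≤ ∑ y ∈ η, (Icc (-100 : ℝ) 100).indicator (fun _ => 600002) (x - y) := by
  by_cases h : ∃ y ∈ η, |x - y| ≤ 100
  · refine le_trans ?_ (le_sum_near (by norm_num) h)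
    unfold b12 b1 b2
    rw [if_pos h]
    split_ifs <;> push_cast <;> norm_num
  · have h1 : ¬ ∃ y ∈ η, |x - y| ≤ 1 := by
      rintro ⟨z, hz, h3⟩
      exact h ⟨z, hz, h3.trans (by norm_num)⟩
    have h2 : ¬ ∃ y ∈ η, ∃ z ∈ η, y ≠ z ∧ |y - z| ≤ 1 ∧ |x - z| ≤ 1 := by
      rintro ⟨_, _, z, hz, _, _, h3⟩
      exact h1 ⟨z, hz, h3⟩
    unfold b12 b1 b2
    rw [if_neg h, if_neg h1, if_neg h2]
    simpa using sum_near_nonneg (K := 600002) (ρ := 100) (by norm_num) x η

lemma rate12_le (η : Finset ℝ) :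
    totalRate b12 η ≤ ENNReal.ofReal (600002 * (2 * 100) * η.card) :=
  totalRate_le (by norm_num) (by norm_num) b12_le η

lemma drift {m : ℕ} {v : Fin (m + 2) → ℝ} (hv : Good v) :
    ∫⁻ x, ENNReal.ofReal (Wf (Fin.snoc v x : Fin (m + 1 + 2) → ℝ)) *
      b12 x (Finset.univ.image v) ≤
    ENNReal.ofReal ((totalRate b12 (Finset.univ.image v)).toReal * Wf v + 300673) := by
  have hβm : Measurable fun x => b12 x (Finset.univ.image v) := measurable_rate measurable_b12 v
  have hfin : ∫⁻ x, (b12 x (Finset.univ.image v) : ℝ≥0∞) ≠ ∞ := rate_ne_top rate12_le _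
  have hβi : Integrable fun x => (b12 x (Finset.univ.image v) : ℝ) := by
    refine ⟨hβm.coe_nnreal_real.aestronglyMeasurable, ?_⟩
    rw [hasFiniteIntegral_iff_ofReal (ae_of_all _ fun x => NNReal.coe_nonneg _)]
    simpa using lt_top_iff_ne_top.2 hfin
  have hβ : ∫ x, (b12 x (Finset.univ.image v) : ℝ) =
      (totalRate b12 (Finset.univ.image v)).toReal := by
    rw [integral_eq_lintegral_of_nonneg_ae (ae_of_all _ fun x => NNReal.coe_nonneg _)
      hβm.coe_nnreal_real.aestronglyMeasurable]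
    simp [totalRate]
  have hae : ∀ᵐ x : ℝ, x ∉ range v := by
    have := (Set.finite_range v).measure_zero volume
    exact measure_eq_zero_iff_ae_notMem.1 this
  have hpt : ∀ᵐ x : ℝ, ENNReal.ofReal (Wf (Fin.snoc v x : Fin (m + 1 + 2) → ℝ)) *
      b12 x (Finset.univ.image v) ≤
      ENNReal.ofReal ((b12 x (Finset.univ.image v) : ℝ) * Wf v + ebd v x) := by
    filter_upwards [hae] with x hx
    have h1 : ((b12 x (Finset.univ.image v) : ℝ≥0) : ℝ≥0∞) =
        ENNReal.ofReal (b12 x (Finset.univ.image v) : ℝ) := by simp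
    rw [h1, mul_comm, ← ENNReal.ofReal_mul (NNReal.coe_nonneg _)]
    exact ENNReal.ofReal_le_ofReal (pointwise hv hx)
  have hnn : ∀ᵐ x : ℝ, 0 ≤ (b12 x (Finset.univ.image v) : ℝ) * Wf v + ebd v x := by
    filter_upwards [hae] with x hx
    exact (mul_nonneg (NNReal.coe_nonneg _) (Wf_nonneg (good_snoc hv x))).trans (pointwise hv hx)
  refine (lintegral_mono_ae hpt).trans ?_
  have hadd : Integrable fun x => (b12 x (Finset.univ.image v) : ℝ) * Wf v + ebd v x :=
    (hβi.mul_const _).add (integrable_ebd hv)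
  rw [← ofReal_integral_eq_lintegral_ofReal hadd hnn,
    integral_add (hβi.mul_const _) (integrable_ebd hv), integral_mul_const, hβ]
  exact ENNReal.ofReal_le_ofReal (by linarith [integral_ebd hv])

lemma measurable_Psi {m : ℕ} : Measurable fun v : Fin (m + 2) → ℝ => Psi v (Bf v) (Bf v) := by
  unfold Psi
  refine Finset.measurable_fun_sum _ fun i _ => ?_
  have hB := measurable_Bf (m := m)
  have hi : Measurable fun v : Fin (m + 2) → ℝ => v i := measurable_pi_apply i
  have hg : Measurable g := by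
    unfold g
    exact ((measurable_id.min measurable_const).const_mul 2).add
      (Real.measurable_exp.comp (measurable_id.div_const 100))
  exact Measurable.ite (measurableSet_lt hB hi) (hg.comp (hi.sub hB)) measurable_const

lemma measurable_Wf {m : ℕ} : Measurable (Wf : (Fin (m + 2) → ℝ) → ℝ) :=
  measurable_Bf.add measurable_Psi

lemma lintegral_one_sub {c R : ℝ} (hc : 0 < c) (hR : 0 < R) :
    ∫⁻ s in Ioi (0 : ℝ), ENNReal.ofReal (1 - Real.exp (-(c * s))) *
      ENNReal.ofReal (Real.exp (-(R * s))) = ENNReal.ofReal (c / (R * (c + R))) := by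
  have h1 : IntegrableOn (fun s : ℝ => Real.exp (-R * s)) (Ioi 0) :=
    integrableOn_exp_mul_Ioi (by linarith) 0
  have h2 := integral_exp_mul_Ioi (a := -R) (by linarith) 0
  have h3 : IntegrableOn (fun s : ℝ => Real.exp (-(c + R) * s)) (Ioi 0) :=
    integrableOn_exp_mul_Ioi (by linarith) 0
  have h4 := integral_exp_mul_Ioi (a := -(c + R)) (by linarith) 0
  have h5 : ∀ s ∈ Ioi (0 : ℝ), ENNReal.ofReal (1 - Real.exp (-(c * s))) *
      ENNReal.ofReal (Real.exp (-(R * s))) =
      ENNReal.ofReal (Real.exp (-R * s) - Real.exp (-(c + R) * s)) := by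
    intro s hs
    have hs' : (0 : ℝ) < s := hs
    have h6 : Real.exp (-(c * s)) ≤ 1 := Real.exp_le_one_iff.2 (by
      have := mul_pos hc hs'
      linarith)
    rw [← ENNReal.ofReal_mul (by linarith)]
    congr 1
    rw [sub_mul, one_mul, ← Real.exp_add]
    congr 2 <;> ring
  have h13 : IntegrableOn (fun s : ℝ => Real.exp (-R * s) - Real.exp (-(c + R) * s)) (Ioi 0) :=
    h1.sub h3
  rw [setLIntegral_congr_fun measurableSet_Ioi h5,
    ← ofReal_integral_eq_lintegral_ofReal h13, integral_sub h1 h3, h2, h4]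
  · congr 1
    simp only [mul_zero, Real.exp_zero]
    field_simp
    ring
  · refine (ae_restrict_iff' measurableSet_Ioi).2 (ae_of_all _ fun s hs => ?_)
    have hs' : (0 : ℝ) < s := hs
    show 0 ≤ Real.exp (-R * s) - Real.exp (-(c + R) * s)
    have : Real.exp (-(c + R) * s) ≤ Real.exp (-R * s) := Real.exp_le_exp.2 (by
      have := mul_pos hc hs'
      linarith)
    linarith

variable {Ω : Type*} [MeasurableSpace Ω] {b : ℝ → Finset ℝ → ℝ≥0} {P : Measure Ω}
  {τ X : ℕ → Ω → ℝ}

lemma step_one_sub (h : IsBirthProcess b P τ X)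
    (hb : ∀ n : ℕ, Measurable fun p : ℝ × (Fin n → ℝ) => b p.1 (Finset.univ.image p.2))
    (n : ℕ) {c : ℝ} (hc : 0 < c) {Q : (Fin (n + 1) → ℝ × ℝ) → ℝ≥0∞} (hQ : Measurable Q)
    (hfin : ∀ ω, totalRate b (config X n ω) ≠ ∞)
    (hpos : ∀ ω, Q (hist τ X n ω) ≠ 0 → 0 < (totalRate b (config X n ω)).toReal) :
    ∫⁻ ω, Q (hist τ X n ω) *
        ENNReal.ofReal (1 - Real.exp (-(c * (τ (n + 1) ω - τ n ω)))) ∂P =
      ∫⁻ ω, Q (hist τ X n ω) *
        ENNReal.ofReal (c / (c + (totalRate b (config X n ω)).toReal)) ∂P := by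
  have hG : Measurable fun q : (Fin (n + 1) → ℝ × ℝ) × ℝ × ℝ =>
      Q q.1 * ENNReal.ofReal (1 - Real.exp (-(c * q.2.1))) := by
    fun_prop
  rw [h.step n _ hG]
  refine lintegral_congr fun ω => ?_
  by_cases hq : Q (hist τ X n ω) = 0
  · simp [hq]
  have hR := hpos ω hq
  have h1 : ∀ s : ℝ, ∫⁻ x, Q (hist τ X n ω) * ENNReal.ofReal (1 - Real.exp (-(c * s))) *
      (b x (config X n ω) *
        ENNReal.ofReal (Real.exp (-((totalRate b (config X n ω)).toReal * s)))) =
      (Q (hist τ X n ω) * totalRate b (config X n ω)) *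
        (ENNReal.ofReal (1 - Real.exp (-(c * s))) *
        ENNReal.ofReal (Real.exp (-((totalRate b (config X n ω)).toReal * s)))) := by
    intro s
    have h2 : ∀ x : ℝ, Q (hist τ X n ω) * ENNReal.ofReal (1 - Real.exp (-(c * s))) *
        (b x (config X n ω) *
          ENNReal.ofReal (Real.exp (-((totalRate b (config X n ω)).toReal * s)))) =
        (Q (hist τ X n ω) * (ENNReal.ofReal (1 - Real.exp (-(c * s))) *
          ENNReal.ofReal (Real.exp (-((totalRate b (config X n ω)).toReal * s))))) *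
        b x (config X n ω) := fun x => by ring
    simp only [h2]
    have h3 : Measurable fun x => (b x (config X n ω) : ℝ≥0∞) :=
      (measurable_rate hb (pos (hist τ X n ω))).coe_nnreal_ennreal
    rw [lintegral_const_mul _ h3]
    unfold totalRate
    ring
  simp only [h1]
  rw [lintegral_const_mul _ (by fun_prop), lintegral_one_sub hc hR]
  set R := (totalRate b (config X n ω)).toReal with hRdef
  rw [← ENNReal.ofReal_toReal (hfin ω), ← hRdef, mul_assoc, ← ENNReal.ofReal_mul hR.le]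
  congr 2
  field_simp

end Pool.Agent.Q287.BP
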