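import Mathlib
import Pool.Agent.Q287.BP.Upper3

open MeasureTheory Set Filter Topology
open scoped NNReal ENNReal

namespace Pool.Agent.Q287.BP

lemma rate12_pos {m : ℕ} {v : Fin (m + 2) → ℝ} (hv : Good v) :
    0 < (totalRate b12 (Finset.univ.image v)).toReal := by
  refine ENNReal.toReal_pos ?_ (rate_ne_top rate12_le _)
  have h1 : (600002 : ℝ≥0∞) ≤ totalRate b12 (Finset.univ.image v) := by
    unfold totalRate
    have h2 : ∫⁻ x in Ioc (Bf v) (Bf v + 1), (600002 : ℝ≥0∞) = 600002 := by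
      rw [lintegral_const, Measure.restrict_apply MeasurableSet.univ, univ_inter,
        Real.volume_Ioc]
      simp
    rw [← h2, ← lintegral_indicator measurableSet_Ioc]
    refine lintegral_mono fun x => ?_
    by_cases hx : x ∈ Ioc (Bf v) (Bf v + 1)
    · rw [indicator_of_mem hx, b12_near hv hx.1 hx.2]
      norm_num
    · rw [indicator_of_notMem hx]
      exact zero_le
  intro hz
  rw [hz] at h1
  simp at h1

/-- discount factor on the good event -/
noncomputable def Qd (c : ℝ) (m : ℕ) (q : Fin (m + 1 + 1) → ℝ × ℝ) : ℝ≥0∞ :=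
  {q : Fin (m + 2) → ℝ × ℝ | Good (pos q)}.indicator
    (fun q => ENNReal.ofReal (Real.exp (-(c * (q (Fin.last (m + 1))).1)))) q

lemma measurable_Qd (c : ℝ) (m : ℕ) : Measurable (Qd c m) := by
  refine Measurable.indicator (by fun_prop) ?_
  exact measurable_pos measurableSet_good

variable {Ω : Type*} [MeasurableSpace Ω] {P : Measure Ω} {τ X : ℕ → Ω → ℝ}

/-- value of the Lyapunov function after `m + 1` births -/
noncomputable def WW (τ X : ℕ → Ω → ℝ) (m : ℕ) (ω : Ω) : ℝ := Wf (pos (hist τ X (m + 1) ω))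

lemma measurable_WW (h : IsBirthProcess b12 P τ X) (m : ℕ) : Measurable (WW τ X m) :=
  measurable_Wf.comp (measurable_pos.comp (measurable_hist h (m + 1)))

lemma Qd_eq (h : IsBirthProcess b12 P τ X) (c : ℝ) (m : ℕ) (ω : Ω) :
    Qd c m (hist τ X (m + 1) ω) =
      (goodEvent X).indicator (fun ω => ENNReal.ofReal (Real.exp (-(c * τ (m + 1) ω)))) ω := by
  unfold Qd
  by_cases hg : ω ∈ goodEvent X
  · have hg' : hist τ X (m + 1) ω ∈ {q : Fin (m + 2) → ℝ × ℝ | Good (pos q)} :=
      (good_iff h m ω).2 hg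
    rw [indicator_of_mem hg, indicator_of_mem hg']
    simp [hist]
  · have hg' : hist τ X (m + 1) ω ∉ {q : Fin (m + 2) → ℝ × ℝ | Good (pos q)} :=
      fun hc => hg ((good_iff h m ω).1 hc)
    rw [indicator_of_notMem hg, indicator_of_notMem hg']

lemma Qd_succ (h : IsBirthProcess b12 P τ X) (c : ℝ) (m : ℕ) (ω : Ω) :
    Qd c (m + 1) (hist τ X (m + 1 + 1) ω) = Qd c m (hist τ X (m + 1) ω) *
      ENNReal.ofReal (Real.exp (-(c * (τ (m + 1 + 1) ω - τ (m + 1) ω)))) := by
  rw [Qd_eq h, Qd_eq h]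
  by_cases hg : ω ∈ goodEvent X
  · rw [indicator_of_mem hg, indicator_of_mem hg, ← ENNReal.ofReal_mul (Real.exp_pos _).le,
      ← Real.exp_add]
    congr 2
    ring
  · rw [indicator_of_notMem hg, indicator_of_notMem hg, zero_mul]

lemma resolvent_step (h : IsBirthProcess b12 P τ X) {c : ℝ} (hc : 0 < c) (m : ℕ) :
    ∫⁻ ω, Qd c (m + 1) (hist τ X (m + 1 + 1) ω) * ENNReal.ofReal (WW τ X (m + 1) ω) ∂P +
      ∫⁻ ω, Qd c m (hist τ X (m + 1) ω) *
        ENNReal.ofReal (1 - Real.exp (-(c * (τ (m + 1 + 1) ω - τ (m + 1) ω)))) *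
        ENNReal.ofReal (WW τ X m ω) ∂P ≤
    ∫⁻ ω, Qd c m (hist τ X (m + 1) ω) * ENNReal.ofReal (WW τ X m ω) ∂P +
      ENNReal.ofReal (300673 / c) * ∫⁻ ω, Qd c m (hist τ X (m + 1) ω) *
        ENNReal.ofReal (1 - Real.exp (-(c * (τ (m + 1 + 1) ω - τ (m + 1) ω)))) ∂P := by
  set Q := Qd c m with hQdef
  have hQ : Measurable Q := measurable_Qd c m
  have hgood : ∀ ω, Q (hist τ X (m + 1) ω) ≠ 0 → Good (pos (hist τ X (m + 1) ω)) := by
    intro ω hω
    by_contra hg
    exact hω (indicator_of_notMem (show hist τ X (m + 1) ω ∉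
      {q : Fin (m + 2) → ℝ × ℝ | Good (pos q)} from hg) _)
  have hRpos : ∀ ω, Q (hist τ X (m + 1) ω) ≠ 0 →
      0 < (totalRate b12 (config X (m + 1) ω)).toReal := fun ω hω => rate12_pos (hgood ω hω)
  have hH : Measurable fun q : (Fin (m + 1 + 1) → ℝ × ℝ) × ℝ =>
      ENNReal.ofReal (Wf (Fin.snoc (pos q.1) q.2 : Fin (m + 1 + 2) → ℝ)) :=
    (measurable_Wf.comp (measurable_snoc (m := m + 2))).ennreal_ofReal
  have hWm : Measurable fun q : Fin (m + 1 + 1) → ℝ × ℝ => ENNReal.ofReal (Wf (pos q)) :=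
    (measurable_Wf.comp measurable_pos).ennreal_ofReal
  have hhist := measurable_hist h (m + 1)
  -- first integral
  have e1 : ∫⁻ ω, Qd c (m + 1) (hist τ X (m + 1 + 1) ω) * ENNReal.ofReal (WW τ X (m + 1) ω) ∂P =
      ∫⁻ ω, Q (hist τ X (m + 1) ω) *
        ENNReal.ofReal (1 / (c + (totalRate b12 (config X (m + 1) ω)).toReal)) *
        (∫⁻ x, ENNReal.ofReal (Wf (Fin.snoc (pos (hist τ X (m + 1) ω)) x :
          Fin (m + 1 + 2) → ℝ)) * b12 x (config X (m + 1) ω)) ∂P := by
    rw [← step_exp h measurable_b12 (m + 1) c hQ hH (fun ω hω => by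
      have := hRpos ω hω
      linarith)]
    refine lintegral_congr fun ω => ?_
    rw [Qd_succ h]
    congr 2
    unfold WW
    rw [pos_hist_succ]
  -- second integral
  have e2 : ∫⁻ ω, Q (hist τ X (m + 1) ω) *
        ENNReal.ofReal (1 - Real.exp (-(c * (τ (m + 1 + 1) ω - τ (m + 1) ω)))) *
        ENNReal.ofReal (WW τ X m ω) ∂P =
      ∫⁻ ω, Q (hist τ X (m + 1) ω) * ENNReal.ofReal (WW τ X m ω) *
        ENNReal.ofReal (c / (c + (totalRate b12 (config X (m + 1) ω)).toReal)) ∂P := by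
    have h1 := step_one_sub h measurable_b12 (m + 1) hc
      (Q := fun q => Q q * ENNReal.ofReal (Wf (pos q))) (hQ.mul hWm)
      (fun ω => rate_ne_top rate12_le _) (fun ω hω => hRpos ω (fun hz => hω (by
        simp only [hz, zero_mul])))
    unfold WW
    rw [← h1]
    refine lintegral_congr fun ω => ?_
    ring
  have e3 : ∫⁻ ω, Q (hist τ X (m + 1) ω) *
        ENNReal.ofReal (1 - Real.exp (-(c * (τ (m + 1 + 1) ω - τ (m + 1) ω)))) ∂P =
      ∫⁻ ω, Q (hist τ X (m + 1) ω) *
        ENNReal.ofReal (c / (c + (totalRate b12 (config X (m + 1) ω)).toReal)) ∂P :=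
    step_one_sub h measurable_b12 (m + 1) hc hQ (fun ω => rate_ne_top rate12_le _) hRpos
  rw [e1, e2, e3]
  have hmR : Measurable fun ω => (totalRate b12 (config X (m + 1) ω)).toReal := by
    have h1 : Measurable fun p : (Fin (m + 1 + 1) → ℝ) × ℝ =>
        (b12 p.2 (Finset.univ.image p.1) : ℝ≥0∞) :=
      ((measurable_b12 (m + 1 + 1)).comp measurable_swap).coe_nnreal_ennreal
    have h2 := (h1.lintegral_prod_right' (ν := volume)).ennreal_toReal
    exact h2.comp (measurable_pos.comp hhist)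
  have hQo : Measurable fun ω => Q (hist τ X (m + 1) ω) := hQ.comp hhist
  have hWo : Measurable fun ω => ENNReal.ofReal (WW τ X m ω) :=
    (measurable_WW h m).ennreal_ofReal
  rw [← lintegral_const_mul _ (by fun_prop), ← lintegral_add_right _ (by fun_prop),
    ← lintegral_add_right _ (by fun_prop)]
  refine lintegral_mono fun ω => ?_
  by_cases hω : Q (hist τ X (m + 1) ω) = 0
  · simp [hω]
  have hg := hgood ω hω
  set R := (totalRate b12 (config X (m + 1) ω)).toReal with hR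
  have hR0 : 0 < R := hRpos ω hω
  have hW0 : 0 ≤ WW τ X m ω := Wf_nonneg hg
  have h1 : ∫⁻ x, ENNReal.ofReal (Wf (Fin.snoc (pos (hist τ X (m + 1) ω)) x :
          Fin (m + 1 + 2) → ℝ)) * b12 x (config X (m + 1) ω) ≤
      ENNReal.ofReal (R * WW τ X m ω + 300673) := drift hg
  have hcR : 0 < c + R := by linarith
  calc Q (hist τ X (m + 1) ω) * ENNReal.ofReal (1 / (c + R)) *
        (∫⁻ x, ENNReal.ofReal (Wf (Fin.snoc (pos (hist τ X (m + 1) ω)) x :
          Fin (m + 1 + 2) → ℝ)) * b12 x (config X (m + 1) ω)) +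
        Q (hist τ X (m + 1) ω) * ENNReal.ofReal (WW τ X m ω) * ENNReal.ofReal (c / (c + R))
      ≤ Q (hist τ X (m + 1) ω) * ENNReal.ofReal (1 / (c + R)) *
        ENNReal.ofReal (R * WW τ X m ω + 300673) +
        Q (hist τ X (m + 1) ω) * ENNReal.ofReal (WW τ X m ω) * ENNReal.ofReal (c / (c + R)) :=
        add_le_add (mul_le_mul' le_rfl h1) le_rfl
    _ = Q (hist τ X (m + 1) ω) * (ENNReal.ofReal (1 / (c + R)) *
        ENNReal.ofReal (R * WW τ X m ω + 300673) +
        ENNReal.ofReal (WW τ X m ω) * ENNReal.ofReal (c / (c + R))) := by ring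
    _ = Q (hist τ X (m + 1) ω) * (ENNReal.ofReal (WW τ X m ω) +
        ENNReal.ofReal (300673 / c) * ENNReal.ofReal (c / (c + R))) := by
        congr 1
        rw [← ENNReal.ofReal_mul (by positivity), ← ENNReal.ofReal_mul hW0,
          ← ENNReal.ofReal_mul (by positivity), ← ENNReal.ofReal_add (by positivity)
          (by positivity), ← ENNReal.ofReal_add hW0 (by positivity)]
        congr 1
        field_simp
        ring
    _ = _ := by ring

end Pool.Agent.Q287.BP
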