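import Mathlib
import Pool.Agent.Q287.BP.Upper4

open MeasureTheory Set Filter Topology
open scoped NNReal ENNReal

namespace Pool.Agent.Q287.BP

variable {Ω : Type*} [MeasurableSpace Ω] {P : Measure Ω} {τ X : ℕ → Ω → ℝ}

/-- discounted time weight of the `m`-th step -/
noncomputable def dd (c : ℝ) (τ X : ℕ → Ω → ℝ) (m : ℕ) (ω : Ω) : ℝ≥0∞ :=
  Qd c m (hist τ X (m + 1) ω) *
    ENNReal.ofReal (1 - Real.exp (-(c * (τ (m + 1 + 1) ω - τ (m + 1) ω))))

lemma measurable_dd (h : IsBirthProcess b12 P τ X) (c : ℝ) (m : ℕ) :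
    Measurable (dd c τ X m) := by
  unfold dd
  have h1 := (measurable_Qd c m).comp (measurable_hist h (m + 1))
  have h2 := h.measurable_time (m + 1 + 1)
  have h3 := h.measurable_time (m + 1)
  refine h1.mul ?_
  fun_prop

lemma dd_eq (h : IsBirthProcess b12 P τ X) {c : ℝ} (m : ℕ) {ω : Ω}
    (hg : ω ∈ goodEvent X) :
    dd c τ X m ω = ENNReal.ofReal (Real.exp (-(c * τ (m + 1) ω)) -
      Real.exp (-(c * τ (m + 1 + 1) ω))) := by
  unfold dd
  rw [Qd_eq h, indicator_of_mem hg, ← ENNReal.ofReal_mul (Real.exp_pos _).le]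
  congr 1
  rw [mul_sub, mul_one, ← Real.exp_add]
  congr 2
  ring

lemma dd_zero (h : IsBirthProcess b12 P τ X) {c : ℝ} (m : ℕ) {ω : Ω}
    (hg : ω ∉ goodEvent X) : dd c τ X m ω = 0 := by
  unfold dd
  rw [Qd_eq h, indicator_of_notMem hg, zero_mul]

lemma resolvent_sum (h : IsBirthProcess b12 P τ X) {c : ℝ} (hc : 0 < c) (N : ℕ) :
    ∫⁻ ω, Qd c N (hist τ X (N + 1) ω) * ENNReal.ofReal (WW τ X N ω) ∂P +
      ∑ m ∈ Finset.range N, ∫⁻ ω, dd c τ X m ω * ENNReal.ofReal (WW τ X m ω) ∂P ≤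
    ∫⁻ ω, Qd c 0 (hist τ X (0 + 1) ω) * ENNReal.ofReal (WW τ X 0 ω) ∂P +
      ENNReal.ofReal (300673 / c) * ∑ m ∈ Finset.range N, ∫⁻ ω, dd c τ X m ω ∂P := by
  induction N with
  | zero => simp
  | succ N ih =>
    rw [Finset.sum_range_succ, Finset.sum_range_succ]
    have h1 := resolvent_step h hc N
    calc ∫⁻ ω, Qd c (N + 1) (hist τ X (N + 1 + 1) ω) * ENNReal.ofReal (WW τ X (N + 1) ω) ∂P +
          (∑ m ∈ Finset.range N, ∫⁻ ω, dd c τ X m ω * ENNReal.ofReal (WW τ X m ω) ∂P +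
            ∫⁻ ω, dd c τ X N ω * ENNReal.ofReal (WW τ X N ω) ∂P)
        = (∫⁻ ω, Qd c (N + 1) (hist τ X (N + 1 + 1) ω) * ENNReal.ofReal (WW τ X (N + 1) ω) ∂P +
            ∫⁻ ω, dd c τ X N ω * ENNReal.ofReal (WW τ X N ω) ∂P) +
          ∑ m ∈ Finset.range N, ∫⁻ ω, dd c τ X m ω * ENNReal.ofReal (WW τ X m ω) ∂P := by ring
      _ ≤ (∫⁻ ω, Qd c N (hist τ X (N + 1) ω) * ENNReal.ofReal (WW τ X N ω) ∂P +
            ENNReal.ofReal (300673 / c) * ∫⁻ ω, dd c τ X N ω ∂P) +
          ∑ m ∈ Finset.range N, ∫⁻ ω, dd c τ X m ω * ENNReal.ofReal (WW τ X m ω) ∂P :=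
          add_le_add h1 le_rfl
      _ = (∫⁻ ω, Qd c N (hist τ X (N + 1) ω) * ENNReal.ofReal (WW τ X N ω) ∂P +
          ∑ m ∈ Finset.range N, ∫⁻ ω, dd c τ X m ω * ENNReal.ofReal (WW τ X m ω) ∂P) +
            ENNReal.ofReal (300673 / c) * ∫⁻ ω, dd c τ X N ω ∂P := by ring
      _ ≤ (∫⁻ ω, Qd c 0 (hist τ X (0 + 1) ω) * ENNReal.ofReal (WW τ X 0 ω) ∂P +
      ENNReal.ofReal (300673 / c) * ∑ m ∈ Finset.range N, ∫⁻ ω, dd c τ X m ω ∂P) +
            ENNReal.ofReal (300673 / c) * ∫⁻ ω, dd c τ X N ω ∂P := add_le_add ih le_rfl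
      _ = _ := by ring

lemma sum_dd (h : IsBirthProcess b12 P τ X) {c : ℝ} (hc : 0 < c) (N : ℕ) :
    ∑ m ∈ Finset.range N, ∫⁻ ω, dd c τ X m ω ∂P ≤ P (goodEvent X) := by
  rw [← lintegral_finsetSum _ fun m _ => measurable_dd h c m]
  have h1 : ∀ᵐ ω ∂P, ∑ m ∈ Finset.range N, dd c τ X m ω ≤ (goodEvent X).indicator 1 ω := by
    filter_upwards [ae_lt h] with ω hω
    by_cases hg : ω ∈ goodEvent X
    · rw [indicator_of_mem hg]
      simp only [dd_eq h _ hg]
      have hmono : Monotone fun n => τ n ω := monotone_nat_of_le_succ fun n => (hω n).le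
      rw [← ENNReal.ofReal_sum_of_nonneg]
      · rw [Finset.sum_range_sub' (fun m => Real.exp (-(c * τ (m + 1) ω))) N, Pi.one_apply,
          ← ENNReal.ofReal_one]
        refine ENNReal.ofReal_le_ofReal ?_
        have h2 : 0 ≤ τ (0 + 1) ω := by
          have := hmono (Nat.zero_le 1)
          simpa [h.time_zero] using this
        have h3 : Real.exp (-(c * τ (0 + 1) ω)) ≤ 1 := Real.exp_le_one_iff.2 (by
          have := mul_nonneg hc.le h2
          linarith)
        have h4 : 0 < Real.exp (-(c * τ (N + 1) ω)) := Real.exp_pos _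
        linarith
      · intro m _
        rw [sub_nonneg]
        refine Real.exp_le_exp.2 ?_
        have := mul_lt_mul_of_pos_left (hω (m + 1)) hc
        linarith
    · simp only [dd_zero h _ hg, Finset.sum_const_zero]
      exact zero_le
  refine (lintegral_mono_ae h1).trans ?_
  rw [lintegral_indicator_one (measurableSet_goodEvent h)]

lemma Wf_two_le {v : Fin (0 + 2) → ℝ} (hv : Good v) : Wf v ≤ 1 := by
  have hle : ∀ i, v i ≤ 1 := by
    intro i
    fin_cases i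
    · show v 0 ≤ 1
      rw [hv.1]
      norm_num
    · exact (abs_le.1 hv.2.2).2
  have hB : Bf v ≤ 1 := by
    obtain ⟨i, hi⟩ := Bf_le_some hv
    exact hi.trans (hle i)
  have hP : Psi v (Bf v) (Bf v) = 0 := by
    unfold Psi
    refine Finset.sum_eq_zero fun i _ => ?_
    rw [if_neg]
    intro hi
    have h1 := lt_of_above hv.front hv.seed (mem_range_self i) hi
    have h2 := hv.front.nonneg
    linarith [hle i]
  unfold Wf
  rw [hP, add_zero]
  exact hB

lemma a_zero_le (h : IsBirthProcess b12 P τ X) {c : ℝ} (hc : 0 < c) :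
    ∫⁻ ω, Qd c 0 (hist τ X (0 + 1) ω) * ENNReal.ofReal (WW τ X 0 ω) ∂P ≤ P (goodEvent X) := by
  rw [← lintegral_indicator_one (measurableSet_goodEvent h)]
  refine lintegral_mono_ae ?_
  filter_upwards [ae_lt h] with ω hω
  rw [Qd_eq h]
  by_cases hg : ω ∈ goodEvent X
  · rw [indicator_of_mem hg, indicator_of_mem hg]
    have h1 : WW τ X 0 ω ≤ 1 := Wf_two_le ((good_iff h 0 ω).2 hg)
    have h2 : 0 ≤ τ (0 + 1) ω := by
      have := hω 0
      simp only [h.time_zero] at this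
      exact this.le
    have h3 : Real.exp (-(c * τ (0 + 1) ω)) ≤ 1 := Real.exp_le_one_iff.2 (by
      have := mul_nonneg hc.le h2
      linarith)
    calc ENNReal.ofReal (Real.exp (-(c * τ (0 + 1) ω))) * ENNReal.ofReal (WW τ X 0 ω)
        ≤ ENNReal.ofReal 1 * ENNReal.ofReal 1 :=
          mul_le_mul' (ENNReal.ofReal_le_ofReal h3) (ENNReal.ofReal_le_ofReal h1)
      _ = 1 := by simp
  · rw [indicator_of_notMem hg, zero_mul]
    exact zero_le

lemma resolvent_tsum (h : IsBirthProcess b12 P τ X) {c : ℝ} (hc : 0 < c) :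
    ∫⁻ ω, ∑' m, dd c τ X m ω * ENNReal.ofReal (WW τ X m ω) ∂P ≤
      (1 + ENNReal.ofReal (300673 / c)) * P (goodEvent X) := by
  have hm : ∀ m, AEMeasurable (fun ω => dd c τ X m ω * ENNReal.ofReal (WW τ X m ω)) P :=
    fun m => ((measurable_dd h c m).mul (measurable_WW h m).ennreal_ofReal).aemeasurable
  rw [lintegral_tsum hm]
  refine ENNReal.tsum_le_of_sum_range_le fun N => ?_
  calc ∑ m ∈ Finset.range N, ∫⁻ ω, dd c τ X m ω * ENNReal.ofReal (WW τ X m ω) ∂P
      ≤ ∫⁻ ω, Qd c N (hist τ X (N + 1) ω) * ENNReal.ofReal (WW τ X N ω) ∂P +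
      ∑ m ∈ Finset.range N, ∫⁻ ω, dd c τ X m ω * ENNReal.ofReal (WW τ X m ω) ∂P := le_add_self
    _ ≤ _ := resolvent_sum h hc N
    _ ≤ P (goodEvent X) + ENNReal.ofReal (300673 / c) * P (goodEvent X) :=
        add_le_add (a_zero_le h hc) (mul_le_mul' le_rfl (sum_dd h hc N))
    _ = _ := by ring

/-- telescoping bound -/
lemma tele {a b' c : ℝ} (hc : 0 < c) (_hab : a ≤ b') :
    (a + 1 / c) * Real.exp (-(c * a)) - (b' + 1 / c) * Real.exp (-(c * b')) ≤
      b' * (Real.exp (-(c * a)) - Real.exp (-(c * b'))) := by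
  have h1 := Real.add_one_le_exp (-(c * (b' - a)))
  have h2 : Real.exp (-(c * b')) = Real.exp (-(c * a)) * Real.exp (-(c * (b' - a))) := by
    rw [← Real.exp_add]
    congr 1
    ring
  have h3 : 0 < Real.exp (-(c * a)) := Real.exp_pos _
  have h4 : (a + 1 / c) * Real.exp (-(c * a)) - (b' + 1 / c) * Real.exp (-(c * b')) -
      b' * (Real.exp (-(c * a)) - Real.exp (-(c * b'))) =
      (Real.exp (-(c * a)) / c) * (1 - c * (b' - a) - Real.exp (-(c * (b' - a)))) := by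
    rw [h2]
    field_simp
    ring
  have h5 : 0 ≤ (Real.exp (-(c * a)) / c) := by positivity
  have h6 : (Real.exp (-(c * a)) / c) * (1 - c * (b' - a) - Real.exp (-(c * (b' - a)))) ≤ 0 :=
    mul_nonpos_of_nonneg_of_nonpos h5 (by linarith)
  linarith

/-- deterministic lower bound for the discounted sum -/
lemma sum_lower {t W : ℕ → ℝ} (ht : StrictMono t) (htend : Tendsto t atTop atTop) (ht0 : 0 ≤ t 0)
    {σ C c : ℝ} (hσ : 0 ≤ σ) (hC : 0 ≤ C) (hc : 0 < c) {m₀ : ℕ}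
    (hW : ∀ m, m₀ ≤ m → σ * t (m + 1) - C ≤ W m) :
    ENNReal.ofReal (σ * ((t m₀ + 1 / c) * Real.exp (-(c * t m₀))) - C) ≤
      ∑' m, ENNReal.ofReal (Real.exp (-(c * t m)) - Real.exp (-(c * t (m + 1)))) *
        ENNReal.ofReal (W m) := by
  set e : ℕ → ℝ := fun m => Real.exp (-(c * t m)) with he
  set K : ℕ → ℝ := fun m => (t m + 1 / c) * Real.exp (-(c * t m)) with hK
  have he_anti : ∀ m, e (m + 1) ≤ e m := fun m => Real.exp_le_exp.2 (by
    have := mul_lt_mul_of_pos_left (ht (Nat.lt_succ_self m)) hc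
    simp only [Nat.succ_eq_add_one] at this
    linarith)
  have hind : ∀ n, ENNReal.ofReal (σ * (K m₀ - K (m₀ + n)) - C * (e m₀ - e (m₀ + n))) ≤
      ∑ k ∈ Finset.range n, ENNReal.ofReal (e (m₀ + k) - e (m₀ + k + 1)) *
        ENNReal.ofReal (W (m₀ + k)) := by
    intro n
    induction n with
    | zero => simp
    | succ n ih =>
      rw [Finset.sum_range_succ]
      have h1 : σ * (K m₀ - K (m₀ + (n + 1))) - C * (e m₀ - e (m₀ + (n + 1))) =
          (σ * (K m₀ - K (m₀ + n)) - C * (e m₀ - e (m₀ + n))) +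
          (σ * (K (m₀ + n) - K (m₀ + n + 1)) - C * (e (m₀ + n) - e (m₀ + n + 1))) := by
        rw [← add_assoc]
        ring
      rw [h1]
      refine ENNReal.ofReal_add_le.trans (add_le_add ih ?_)
      rw [← ENNReal.ofReal_mul (sub_nonneg.2 (he_anti _))]
      refine ENNReal.ofReal_le_ofReal ?_
      have h2 := tele (a := t (m₀ + n)) (b' := t (m₀ + n + 1)) hc
        (ht (Nat.lt_succ_self _)).le
      have h3 := mul_le_mul_of_nonneg_left h2 hσ
      have h4 := mul_le_mul_of_nonneg_left (hW (m₀ + n) (Nat.le_add_right _ _))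
        (sub_nonneg.2 (he_anti (m₀ + n)))
      simp only [he, hK] at h4 ⊢
      linarith
  have hle : ∀ n, ENNReal.ofReal (σ * (K m₀ - K (m₀ + n)) - C * (e m₀ - e (m₀ + n))) ≤
      ∑' m, ENNReal.ofReal (e m - e (m + 1)) * ENNReal.ofReal (W m) := by
    intro n
    refine (hind n).trans ?_
    have h1 := ENNReal.sum_le_tsum (f := fun m => ENNReal.ofReal (e m - e (m + 1)) *
      ENNReal.ofReal (W m)) (Finset.Ico m₀ (m₀ + n))
    rw [Finset.sum_Ico_eq_sum_range] at h1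
    simpa using h1
  have htn : Tendsto (fun n => t (m₀ + n)) atTop atTop := by
    have := (tendsto_add_atTop_iff_nat (f := t) m₀).2 htend
    simpa [add_comm] using this
  have hctn : Tendsto (fun n => c * t (m₀ + n)) atTop atTop := htn.const_mul_atTop hc
  have hE : Tendsto (fun n => e (m₀ + n)) atTop (𝓝 0) :=
    Real.tendsto_exp_neg_atTop_nhds_zero.comp hctn
  have hKt : Tendsto (fun n => K (m₀ + n)) atTop (𝓝 0) := by
    have h1 := (Real.tendsto_pow_mul_exp_neg_atTop_nhds_zero 1).comp hctn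
    have h2 := (h1.const_mul (1 / c)).add (hE.const_mul (1 / c))
    simp only [mul_zero, add_zero] at h2
    refine h2.congr fun n => ?_
    simp only [hK, he, Function.comp, pow_one]
    field_simp
  have hlim : Tendsto (fun n => ENNReal.ofReal (σ * (K m₀ - K (m₀ + n)) -
      C * (e m₀ - e (m₀ + n)))) atTop (𝓝 (ENNReal.ofReal (σ * (K m₀ - 0) - C * (e m₀ - 0)))) :=
    ENNReal.tendsto_ofReal (((hKt.const_sub _).const_mul σ).sub ((hE.const_sub _).const_mul C))
  refine le_trans ?_ (le_of_tendsto' hlim hle)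
  refine ENNReal.ofReal_le_ofReal ?_
  have h5 : e m₀ ≤ 1 := Real.exp_le_one_iff.2 (by
    have h6 : 0 ≤ t m₀ := ht0.trans (ht.monotone (Nat.zero_le _))
    have := mul_nonneg hc.le h6
    linarith)
  have h6 := mul_le_mul_of_nonneg_left h5 hC
  simp only [hK, sub_zero]
  linarith

end Pool.Agent.Q287.BP
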