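import Mathlib
import Pool.Agent.Q287.BP.Upper5

open MeasureTheory Set Filter Topology
open scoped NNReal ENNReal

namespace Pool.Agent.Q287.BP

lemma Ff_le_Wf {m : ℕ} (v : Fin (m + 2) → ℝ) :
    Ff v ≤ Wf v + 100 * Real.log 100 := by
  have hlog : 0 ≤ Real.log 100 := Real.log_nonneg (by norm_num)
  have hP := Psi_nonneg v (Bf v)
  rcases le_or_gt (Ff v) (Bf v) with h | h
  · unfold Wf
    linarith
  · obtain ⟨k, hk⟩ := Ff_le_some v
    have h1 : Ff v = v k := le_antisymm hk (le_Ff v k)
    have hnn : ∀ i ∈ (Finset.univ : Finset (Fin (m + 2))),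
        (0 : ℝ) ≤ if Bf v < v i then g (v i - Bf v) else 0 := by
      intro i _
      split_ifs with h2
      · exact g_nonneg (by linarith)
      · exact le_rfl
    have h2 := Finset.single_le_sum hnn (Finset.mem_univ k)
    rw [← h1, if_pos h] at h2
    have h3 : Real.exp ((Ff v - Bf v) / 100) ≤ g (Ff v - Bf v) := by
      unfold g
      have : 0 ≤ min (Ff v - Bf v) 2 := le_min (by linarith) (by norm_num)
      linarith
    have h4 := Real.add_one_le_exp ((Ff v - Bf v) / 100 - Real.log 100)
    rw [Real.exp_sub, Real.exp_log (by norm_num)] at h4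
    unfold Wf Psi
    linarith

theorem speed_b12 {s : ℝ} (hs : IsSpeed b12 s) : s ≤ 300673 := by
  obtain ⟨Ω, mΩ, P, τ, X, r, hP, h, hr, hs0, hshape⟩ := hs
  by_contra hcon
  push Not at hcon
  obtain ⟨ε, hε0, hε1, hσ⟩ : ∃ ε : ℝ, 0 < ε ∧ ε < 1 ∧ 300673 < (1 - ε) * s := by
    refine ⟨(s - 300673) / (2 * s), div_pos (by linarith) (by linarith), ?_, ?_⟩
    · rw [div_lt_one (by linarith)]
      linarith
    · have h1 : (1 - (s - 300673) / (2 * s)) * s = (s + 300673) / 2 := by
        field_simp
        ring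
      rw [h1]
      linarith
  set σ : ℝ := (1 - ε) * s with hσdef
  have hσ0 : 0 ≤ σ := by linarith
  set C : ℝ := r + 100 * Real.log 100 with hC
  have hlog : 0 ≤ Real.log 100 := Real.log_nonneg (by norm_num)
  have hC0 : 0 ≤ C := by positivity
  set c : ℕ → ℝ := fun k => 1 / ((k : ℝ) + 1) with hcdef
  have hc : ∀ k, 0 < c k := fun k => by positivity
  have hctend : Tendsto c atTop (𝓝 0) := tendsto_one_div_add_atTop_nhds_zero_nat
  set Z : ℕ → Ω → ℝ≥0∞ := fun k ω =>
    ENNReal.ofReal (c k) * ∑' m, dd (c k) τ X m ω * ENNReal.ofReal (WW τ X m ω) with hZ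
  have hZm : ∀ k, Measurable (Z k) := by
    intro k
    refine Measurable.const_mul ?_ _
    exact Measurable.tsum fun m =>
      (measurable_dd h (c k) m).mul (measurable_WW h m).ennreal_ofReal
  have hZint : ∀ k, ∫⁻ ω, Z k ω ∂P ≤
      (ENNReal.ofReal (c k) + ENNReal.ofReal 300673) * P (goodEvent X) := by
    intro k
    simp only [hZ]
    rw [lintegral_const_mul]
    · refine (mul_le_mul' le_rfl (resolvent_tsum h (hc k))).trans (le_of_eq ?_)
      rw [← mul_assoc, mul_add, mul_one, ← ENNReal.ofReal_mul (hc k).le]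
      congr 3
      have := (hc k).ne'
      field_simp
    · exact Measurable.tsum fun m =>
        (measurable_dd h (c k) m).mul (measurable_WW h m).ennreal_ofReal
  have hliminf : ∀ᵐ ω ∂P, (goodEvent X).indicator (fun _ => ENNReal.ofReal σ) ω ≤
      liminf (fun k => Z k ω) atTop := by
    filter_upwards [hshape ε hε0 hε1, ae_tendsto h measurable_b12 (C := 600002 * (2 * 100))
      (by norm_num) rate12_le, ae_lt h] with ω h1 h2 h3
    by_cases hg : ω ∈ goodEvent X
    swap
    · rw [indicator_of_notMem hg]; exact zero_le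
    rw [indicator_of_mem hg]
    have hstrict : StrictMono fun n => τ n ω := strictMono_nat_of_lt_succ h3
    obtain ⟨t₀, ht₀⟩ := eventually_atTop.1 h1
    obtain ⟨m₀, hm₀⟩ := (h2.eventually (eventually_ge_atTop t₀)).exists
    have hW : ∀ m, m₀ ≤ m → σ * τ (m + 1 + 1) ω - C ≤ WW τ X m ω := by
      intro m hm
      have hF : σ * τ (m + 1 + 1) ω ≤ Ff (pos (hist τ X (m + 1) ω)) + r := by
        refine le_of_forall_lt fun y hy => ?_
        -- choose a time just before the next birth
        have hσpos : 0 < σ := by linarith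
        obtain ⟨t, ht1, ht2, ht3⟩ : ∃ t, τ (m + 1) ω ≤ t ∧ t < τ (m + 1 + 1) ω ∧ y < σ * t := by
          have h5 : y / σ < τ (m + 1 + 1) ω := by
            rw [div_lt_iff₀ hσpos, mul_comm]
            exact hy
          obtain ⟨t, ht, ht'⟩ := exists_between (max_lt h5 (h3 (m + 1)))
          refine ⟨t, ((le_max_right _ _).trans_lt ht).le, ht', ?_⟩
          have h6 := (le_max_left _ _).trans_lt ht
          rw [div_lt_iff₀ hσpos] at h6
          linarith
        have ht0 : t₀ ≤ t := by
          refine (hm₀.trans ?_).trans ht1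
          exact hstrict.monotone (by omega)
        have h4 := (ht₀ t ht0).1
        have htpos : 0 ≤ t := by
          have h5 : τ 0 ω ≤ τ (m + 1) ω := hstrict.monotone (Nat.zero_le _)
          rw [h.time_zero] at h5
          linarith
        have h5 : (1 - ε) * s * t ∈ Icc (-((1 - ε) * s * t)) ((1 - ε) * s * t) := by
          have : 0 ≤ (1 - ε) * s * t := mul_nonneg hσ0 htpos
          exact ⟨by linarith, le_rfl⟩
        obtain ⟨n, hn, hn'⟩ := h4 h5
        have h6 : n < m + 1 + 1 := by
          by_contra hc'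
          push Not at hc'
          have := hstrict.monotone hc'
          linarith
        have h7 := le_Ff (pos (hist τ X (m + 1) ω)) ⟨n, h6⟩
        have h8 : pos (hist τ X (m + 1) ω) ⟨n, h6⟩ = X n ω := rfl
        rw [h8] at h7
        have h9 := (abs_le.1 hn').2
        linarith
      have h5 := Ff_le_Wf (pos (hist τ X (m + 1) ω))
      have h6 : WW τ X m ω = Wf (pos (hist τ X (m + 1) ω)) := rfl
      rw [h6, hC]
      linarith
    have hlow : ∀ k, ENNReal.ofReal (σ * ((c k * τ (m₀ + 1) ω + 1) *
        Real.exp (-(c k * τ (m₀ + 1) ω))) - c k * C) ≤ Z k ω := by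
      intro k
      have h4 := sum_lower (t := fun m => τ (m + 1) ω) (W := fun m => WW τ X m ω)
        (fun a b' hab => hstrict (by omega)) ((tendsto_add_atTop_iff_nat 1).2 h2)
        (by
          have h5 : τ 0 ω ≤ τ (0 + 1) ω := hstrict.monotone (Nat.zero_le _)
          rw [h.time_zero] at h5
          exact h5) hσ0 hC0 (hc k) hW
      have h5 : ∑' m, dd (c k) τ X m ω * ENNReal.ofReal (WW τ X m ω) =
          ∑' m, ENNReal.ofReal (Real.exp (-(c k * τ (m + 1) ω)) -
            Real.exp (-(c k * τ (m + 1 + 1) ω))) * ENNReal.ofReal (WW τ X m ω) := by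
        refine tsum_congr fun m => ?_
        rw [dd_eq h m hg]
      simp only [hZ]
      rw [h5]
      refine le_trans (le_of_eq ?_) (mul_le_mul' le_rfl h4)
      rw [← ENNReal.ofReal_mul (hc k).le]
      congr 1
      have := (hc k).ne'
      field_simp
    have hlim : Tendsto (fun k => ENNReal.ofReal (σ * ((c k * τ (m₀ + 1) ω + 1) *
        Real.exp (-(c k * τ (m₀ + 1) ω))) - c k * C)) atTop (𝓝 (ENNReal.ofReal σ)) := by
      have h4 : Continuous fun y : ℝ => σ * ((y * τ (m₀ + 1) ω + 1) *
        Real.exp (-(y * τ (m₀ + 1) ω))) - y * C := by fun_prop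
      have h5 := (h4.tendsto 0).comp hctend
      have h6 : σ * ((0 * τ (m₀ + 1) ω + 1) * Real.exp (-(0 * τ (m₀ + 1) ω))) - 0 * C = σ := by
        simp
      rw [h6] at h5
      exact ENNReal.tendsto_ofReal h5
    rw [← hlim.liminf_eq]
    exact liminf_le_liminf (Eventually.of_forall hlow)
  have hfat : ∫⁻ ω, liminf (fun k => Z k ω) atTop ∂P ≤
      ENNReal.ofReal 300673 * P (goodEvent X) := by
    refine (lintegral_liminf_le hZm).trans ?_
    refine (liminf_le_liminf (Eventually.of_forall hZint)).trans (le_of_eq ?_)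
    have h4 : Tendsto (fun k => (ENNReal.ofReal (c k) + ENNReal.ofReal 300673) *
        P (goodEvent X)) atTop (𝓝 ((0 + ENNReal.ofReal 300673) * P (goodEvent X))) := by
      have h5 : Tendsto (fun k => ENNReal.ofReal (c k)) atTop (𝓝 0) := by
        simpa using ENNReal.tendsto_ofReal hctend
      exact ENNReal.Tendsto.mul_const (h5.add tendsto_const_nhds)
        (Or.inr (measure_ne_top P _))
    rw [h4.liminf_eq, zero_add]
  have h1 := (lintegral_mono_ae hliminf).trans hfat
  rw [lintegral_indicator (measurableSet_goodEvent h), lintegral_const,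
    Measure.restrict_apply MeasurableSet.univ, univ_inter] at h1
  have h0 : P (goodEvent X) ≠ 0 := goodEvent_pos h measurable_b12 (rate_ne_top rate12_le _)
    (fun x hx => by
      unfold b12 b1
      rw [if_pos ⟨0, by simp, by simpa using hx⟩, add_assoc]
      exact le_self_add)
  rw [ENNReal.mul_le_mul_iff_left h0 (measure_ne_top P _)] at h1
  have h2 := (ENNReal.ofReal_le_ofReal_iff (by norm_num)).1 h1
  linarith

end Pool.Agent.Q287.BP
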